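import Pool.Agent.P.MP_c7f95f_an.Main

/-!
Shared definitions for the examples on the unit ball.
-/

namespace Pool.Agent.P.MP_c7f95f_an

open MeasureTheory Set Filter Topology Metric

variable {E : Type*} [NormedAddCommGroup E] [InnerProductSpace ℝ E] [FiniteDimensional ℝ E]
  [MeasurableSpace E] [BorelSpace E]

/-- The function `(1 - |x|²)₊ ^ s`. -/
noncomputable def w0 (s : ℝ) (x : E) : ℝ := (max (1 - ‖x‖ ^ 2) 0) ^ s

/-- The unnormalised bilinear form of the gradient square. -/
noncomputable def Bil (p : ℝ) (u v : E → ℝ) (x : E) : ℝ :=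
  ∫ h, (u x - u (x + h)) * (v x - v (x + h)) * ker p h

/-- Functions on the unit ball with integrable second difference and gradient square. -/
structure Good (p : ℝ) (u : E → ℝ) : Prop where
  cont : Continuous u
  zero : ∀ x, 1 ≤ ‖x‖ → u x = 0
  int_sd : Integrable (fun q : E × E => sd u q.1 q.2 * ker p q.2) (volume.prod volume)
  int_sq : Integrable (fun q : E × E => (u q.1 - u (q.1 + q.2)) ^ 2 * ker p q.2)
    (volume.prod volume)

end Pool.Agent.P.MP_c7f95f_an
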