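import Pool.Agent.P.MP_c7f95f_an.T.Base

/-!
First-order estimates for the function `w0`.
-/

namespace Pool.Agent.P.MP_c7f95f_an

open MeasureTheory Set Filter Topology Metric

theorem abs_rpow_sub_le {s a b : ℝ} (hs0 : 0 ≤ s) (hs1 : s ≤ 1) (ha : 0 ≤ a) (hb : 0 ≤ b) :
    |a ^ s - b ^ s| ≤ |a - b| ^ s := by
  wlog hab : b ≤ a generalizing a b
  · rw [abs_sub_comm, abs_sub_comm a b]; exact this hb ha (le_of_not_ge hab)
  have h1 := Real.rpow_add_le_add_rpow (sub_nonneg.mpr hab) hb hs0 hs1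
  rw [sub_add_cancel] at h1
  rw [abs_of_nonneg (sub_nonneg.mpr (Real.rpow_le_rpow hb hab hs0)),
    abs_of_nonneg (sub_nonneg.mpr hab)]
  linarith

theorem abs_one_sub_rpow_le {s σ t : ℝ} (hs0 : 0 ≤ s) (hsσ : s ≤ σ) (hσ : σ ≤ 1) (ht : 0 ≤ t) :
    |1 - t ^ s| ≤ |1 - t| ^ σ := by
  have hs1 : s ≤ 1 := hsσ.trans hσ
  rcases le_total 1 |1 - t| with h | h
  · have := abs_rpow_sub_le hs0 hs1 zero_le_one ht
    rw [Real.one_rpow] at this
    exact this.trans (Real.rpow_le_rpow_of_exponent_le h hsσ)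
  · have h2 : |1 - t| ≤ |1 - t| ^ σ := by
      conv_lhs => rw [← Real.rpow_one |1 - t|]
      exact Real.rpow_le_rpow_of_exponent_ge' (abs_nonneg _) h (hs0.trans hsσ) hσ
    refine le_trans ?_ h2
    rcases le_total t 1 with h1 | h1
    · have h3 : t ≤ t ^ s := by
        conv_lhs => rw [← Real.rpow_one t]
        exact Real.rpow_le_rpow_of_exponent_ge' ht h1 hs0 hs1
      have h4 : t ^ s ≤ 1 := Real.rpow_le_one ht h1 hs0
      rw [abs_of_nonneg (by linarith), abs_of_nonneg (by linarith)]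
      linarith
    · have h3 : t ^ s ≤ t := by
        conv_rhs => rw [← Real.rpow_one t]
        exact Real.rpow_le_rpow_of_exponent_le h1 hs1
      have h4 : 1 ≤ t ^ s := Real.one_le_rpow h1 hs0
      rw [abs_of_nonpos (by linarith), abs_of_nonpos (by linarith)]
      linarith

theorem abs_rpow_sub_le_mul {s σ a b : ℝ} (hs0 : 0 ≤ s) (hsσ : s ≤ σ) (hσ : σ ≤ 1) (ha : 0 < a)
    (hb : 0 ≤ b) : |a ^ s - b ^ s| ≤ a ^ (s - σ) * |a - b| ^ σ := by
  have h := abs_one_sub_rpow_le hs0 hsσ hσ (div_nonneg hb ha.le)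
  have has : 0 < a ^ s := Real.rpow_pos_of_pos ha s
  have e1 : a ^ s - b ^ s = a ^ s * (1 - (b / a) ^ s) := by
    rw [Real.div_rpow hb ha.le]; field_simp
  have e2 : |1 - b / a| = |a - b| / a := by
    rw [show 1 - b / a = (a - b) / a by field_simp, abs_div, abs_of_pos ha]
  rw [e2, Real.div_rpow (abs_nonneg _) ha.le] at h
  rw [e1, abs_mul, abs_of_pos has, Real.rpow_sub ha]
  calc a ^ s * |1 - (b / a) ^ s| ≤ a ^ s * (|a - b| ^ σ / a ^ σ) := by gcongr
    _ = a ^ s / a ^ σ * |a - b| ^ σ := by ring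

variable {E : Type*} [NormedAddCommGroup E]

/-- The function `(1 - |x|²)₊`. -/
noncomputable def g0 (x : E) : ℝ := max (1 - ‖x‖ ^ 2) 0

theorem w0_eq (s : ℝ) (x : E) : w0 s x = g0 x ^ s := rfl

theorem g0_nonneg (x : E) : 0 ≤ g0 x := le_max_right _ _

theorem g0_le_one (x : E) : g0 x ≤ 1 := max_le (by nlinarith [sq_nonneg ‖x‖]) zero_le_one

theorem g0_pos {x : E} (hx : ‖x‖ < 1) : 0 < g0 x :=
  lt_max_of_lt_left (by nlinarith [norm_nonneg x])

theorem g0_of_lt {x : E} (hx : ‖x‖ < 1) : g0 x = 1 - ‖x‖ ^ 2 :=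
  max_eq_left (by nlinarith [norm_nonneg x])

theorem g0_zero {x : E} (hx : 1 ≤ ‖x‖) : g0 x = 0 := max_eq_right (by nlinarith)

theorem continuous_g0 : Continuous (g0 : E → ℝ) := by unfold g0; fun_prop

theorem abs_g0_sub_le (x y : E) : |g0 x - g0 y| ≤ 2 * ‖x - y‖ := by
  have h := abs_le.mp (abs_norm_sub_norm_le x y)
  have hx := norm_nonneg x
  have hy := norm_nonneg y
  have hxy := norm_nonneg (x - y)
  rcases lt_or_ge ‖x‖ 1 with h1 | h1 <;> rcases lt_or_ge ‖y‖ 1 with h2 | h2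
  · rw [g0_of_lt h1, g0_of_lt h2, abs_le]; constructor <;> nlinarith
  · rw [g0_of_lt h1, g0_zero h2, abs_le]; constructor <;> nlinarith
  · rw [g0_zero h1, g0_of_lt h2, abs_le]; constructor <;> nlinarith
  · rw [g0_zero h1, g0_zero h2]; simp

theorem w0_nonneg (s : ℝ) (x : E) : 0 ≤ w0 s x := Real.rpow_nonneg (g0_nonneg x) s

theorem w0_le_one {s : ℝ} (hs : 0 ≤ s) (x : E) : w0 s x ≤ 1 :=
  Real.rpow_le_one (g0_nonneg x) (g0_le_one x) hs

theorem w0_pos (s : ℝ) {x : E} (hx : ‖x‖ < 1) : 0 < w0 s x := Real.rpow_pos_of_pos (g0_pos hx) s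

theorem w0_zero {s : ℝ} (hs : 0 < s) {x : E} (hx : 1 ≤ ‖x‖) : w0 s x = 0 := by
  rw [w0_eq, g0_zero hx, Real.zero_rpow hs.ne']

theorem continuous_w0 {s : ℝ} (hs : 0 ≤ s) : Continuous (w0 s : E → ℝ) :=
  continuous_g0.rpow_const fun _ => Or.inr hs

theorem w0_anti {s : ℝ} (hs : 0 ≤ s) {x y : E} (h : ‖x‖ ≤ ‖y‖) : w0 s y ≤ w0 s x :=
  Real.rpow_le_rpow (g0_nonneg y)
    (max_le_max (by nlinarith [norm_nonneg x]) le_rfl) hs

theorem abs_w0_sub_le_one {s : ℝ} (hs : 0 ≤ s) (x y : E) : |w0 s x - w0 s y| ≤ 1 := by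
  have := w0_nonneg s x
  have := w0_nonneg s y
  have := w0_le_one hs x
  have := w0_le_one hs y
  rw [abs_le]; constructor <;> linarith

/-- `w0` is `s`-Hölder. -/
theorem w0_holder {s : ℝ} (hs0 : 0 ≤ s) (hs1 : s ≤ 1) (x y : E) :
    |w0 s x - w0 s y| ≤ 2 * ‖x - y‖ ^ s := by
  refine (abs_rpow_sub_le hs0 hs1 (g0_nonneg x) (g0_nonneg y)).trans ?_
  refine (Real.rpow_le_rpow (abs_nonneg _) (abs_g0_sub_le x y) hs0).trans ?_
  rw [Real.mul_rpow (by norm_num) (norm_nonneg _)]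
  gcongr
  conv_rhs => rw [← Real.rpow_one 2]
  exact Real.rpow_le_rpow_of_exponent_le (by norm_num) hs1

/-- The improved estimate at points of the open ball. -/
theorem w0_holder_weight {s σ : ℝ} (hs0 : 0 ≤ s) (hsσ : s ≤ σ) (hσ : σ ≤ 1) {x : E}
    (hx : ‖x‖ < 1) (y : E) :
    |w0 s x - w0 s y| ≤ g0 x ^ (s - σ) * (2 * ‖x - y‖ ^ σ) := by
  refine (abs_rpow_sub_le_mul hs0 hsσ hσ (g0_pos hx) (g0_nonneg y)).trans ?_
  refine mul_le_mul_of_nonneg_left ?_ (Real.rpow_nonneg (g0_nonneg x) _)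
  refine (Real.rpow_le_rpow (abs_nonneg _) (abs_g0_sub_le x y) (hs0.trans hsσ)).trans ?_
  rw [Real.mul_rpow (by norm_num) (norm_nonneg _)]
  gcongr
  conv_rhs => rw [← Real.rpow_one 2]
  exact Real.rpow_le_rpow_of_exponent_le (by norm_num) hσ

theorem one_le_g0_rpow {η : ℝ} (hη : η ≤ 0) {x : E} (hx : ‖x‖ < 1) : 1 ≤ g0 x ^ η :=
  Real.one_le_rpow_of_pos_of_le_one_of_nonpos (g0_pos hx) (g0_le_one x) hη

/-- The comparison kernel. -/
noncomputable def Jk (p σ : ℝ) (h : E) : ℝ := cut h * ker (p + 2 - 2 * σ) h + cut h * ker p h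

theorem Jk_nonneg (p σ : ℝ) (h : E) : 0 ≤ Jk p σ h :=
  add_nonneg (mul_nonneg (cut_nonneg h) (ker_nonneg _ h)) (mul_nonneg (cut_nonneg h) (ker_nonneg _ h))

theorem Jk_neg (p σ : ℝ) (h : E) : Jk p σ (-h) = Jk p σ h := by
  simp [Jk, cut, ker]

theorem mul_ker_le_Jk {p σ a M : ℝ} (hp : p ≠ 0) {h : E} (hM : 0 ≤ M) (h1 : a ≤ M)
    (h2 : a ≤ M * (‖h‖ ^ σ) ^ 2) : a * ker p h ≤ M * Jk p σ h := by
  have hk := ker_nonneg p h
  have hk' := ker_nonneg (p + 2 - 2 * σ) h
  have hc := cut_nonneg h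
  rcases eq_or_ne h 0 with rfl | h0
  · rw [ker_zero hp, mul_zero]; exact mul_nonneg hM (Jk_nonneg _ _ _)
  have hpos : 0 < ‖h‖ := norm_pos_iff.mpr h0
  rcases le_total 1 (‖h‖ ^ 2) with hh | hh
  · have : cut h = 1 := min_eq_left hh
    unfold Jk
    rw [this, one_mul, one_mul]
    nlinarith [mul_le_mul_of_nonneg_right h1 hk, mul_nonneg hM hk']
  · have e : cut h * ker (p + 2 - 2 * σ) h = (‖h‖ ^ σ) ^ 2 * ker p h := by
      rw [show cut h = ‖h‖ ^ 2 from min_eq_right hh, ker, ker, ← Real.rpow_natCast,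
        ← Real.rpow_natCast, ← Real.rpow_mul hpos.le, ← Real.rpow_neg hpos.le,
        ← Real.rpow_neg hpos.le, ← Real.rpow_add hpos, ← Real.rpow_add hpos]
      congr 1; push_cast; ring
    unfold Jk
    rw [e]
    nlinarith [mul_le_mul_of_nonneg_right h2 hk, mul_nonneg hM (mul_nonneg hc hk)]

theorem w0_sq_ker_le {p s σ : ℝ} (hp : p ≠ 0) (hs0 : 0 ≤ s) (hsσ : s ≤ σ) (hσ : σ ≤ 1) {x : E}
    (hx : ‖x‖ < 1) (h : E) :
    (w0 s x - w0 s (x + h)) ^ 2 * ker p h ≤ 4 * g0 x ^ (2 * (s - σ)) * Jk p σ h := by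
  have h1 : 1 ≤ g0 x ^ (2 * (s - σ)) := one_le_g0_rpow (by linarith) hx
  refine mul_ker_le_Jk hp (by linarith) ?_ ?_
  · have := abs_w0_sub_le_one hs0 x (x + h)
    have h2 : (w0 s x - w0 s (x + h)) ^ 2 ≤ 1 := by
      rw [← sq_abs]; nlinarith [abs_nonneg (w0 s x - w0 s (x + h))]
    linarith
  · have := w0_holder_weight hs0 hsσ hσ hx (x + h)
    rw [sub_add_cancel_left, norm_neg] at this
    have h2 := pow_le_pow_left₀ (abs_nonneg _) this 2
    rw [sq_abs] at h2
    refine h2.trans (le_of_eq ?_)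
    rw [mul_comm 2 (s - σ), Real.rpow_mul (g0_nonneg x), Real.rpow_two]
    ring

variable [InnerProductSpace ℝ E] [FiniteDimensional ℝ E] [MeasurableSpace E] [BorelSpace E]

theorem integrable_Jk {p s σ : ℝ} (hp : Expo E p) (hps : p = Module.finrank ℝ E + 2 * s)
    (hsσ : s < σ) (hσ : σ ≤ 1) : Integrable (Jk p σ : E → ℝ) :=
  (integrable_cut_ker (p := p + 2 - 2 * σ) ⟨hp.two, by linarith [hp.lo], by linarith⟩).add
    (integrable_cut_ker hp)

theorem integrableOn_g0_rpow (h2 : 2 ≤ Module.finrank ℝ E) {η : ℝ} (hη : -1 < η) (hη0 : η ≤ 0) :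
    IntegrableOn (fun x : E => g0 x ^ η) (ball 0 1) := by
  have : Nontrivial E := Module.nontrivial_of_finrank_pos (R := ℝ) (by linarith)
  have h1 : IntegrableOn (fun x : E => (1 - ‖x‖) ^ η) (ball 0 1) := by
    rw [integrableOn_fun_norm_addHaar (μ := (volume : Measure E)) (f := fun r : ℝ => (1 - r) ^ η)]
    have h3 : IntegrableOn (fun r : ℝ => (1 - r) ^ η) (Ioo 0 1) := by
      have := (intervalIntegral.intervalIntegrable_rpow' (a := 1) (b := 0) hη).comp_sub_left 1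
      simp only [sub_self, sub_zero] at this
      exact ((intervalIntegrable_iff_integrableOn_Ioo_of_le zero_le_one).mp this)
    refine Integrable.mono' h3 (Measurable.aestronglyMeasurable (by fun_prop)) ?_
    rw [ae_restrict_iff' measurableSet_Ioo]
    refine Eventually.of_forall fun r hr => ?_
    have h4 : 0 ≤ (1 - r) ^ η := Real.rpow_nonneg (by linarith [hr.2]) _
    have h5 : r ^ (Module.finrank ℝ E - 1) ≤ 1 := pow_le_one₀ hr.1.le hr.2.le
    rw [smul_eq_mul, Real.norm_of_nonneg (mul_nonneg (pow_nonneg hr.1.le _) h4)]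
    nlinarith
  refine Integrable.mono' h1
    (Measurable.aestronglyMeasurable (continuous_g0.measurable.pow_const η)) ?_
  rw [ae_restrict_iff' measurableSet_ball]
  refine Eventually.of_forall fun x hx => ?_
  have hx' : ‖x‖ < 1 := by simpa using hx
  rw [Real.norm_of_nonneg (Real.rpow_nonneg (g0_nonneg x) _)]
  refine Real.rpow_le_rpow_of_nonpos (by linarith) ?_ hη0
  rw [g0_of_lt hx']
  nlinarith [norm_nonneg x]

theorem measurable_sq_ker {u : E → ℝ} (hu : Measurable u) (p : ℝ) :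
    Measurable (fun q : E × E => (u q.1 - u (q.1 + q.2)) ^ 2 * ker p q.2) :=
  (((hu.comp measurable_fst).sub (hu.comp (measurable_fst.add measurable_snd))).pow_const 2).mul
    ((measurable_ker p).comp measurable_snd)

theorem integrable_w0_sq {p s : ℝ} (hp : Expo E p) (hps : p = Module.finrank ℝ E + 2 * s) {x : E}
    (hx : ‖x‖ < 1) : Integrable (fun h => (w0 s x - w0 s (x + h)) ^ 2 * ker p h) := by
  have hs0 : 0 < s := by linarith [hp.lo]
  have hs1 : s < 1 := by linarith [hp.hi]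
  have hp0 : p ≠ 0 := by linarith [hp.two_lt]
  refine Integrable.mono' ((integrable_Jk hp hps hs1 le_rfl).const_mul (4 * g0 x ^ (2 * (s - 1))))
    ((measurable_sq_ker (continuous_w0 hs0.le).measurable p).comp
      (measurable_const.prodMk measurable_id)).aestronglyMeasurable
    (Eventually.of_forall fun h => ?_)
  rw [Real.norm_of_nonneg (mul_nonneg (sq_nonneg _) (ker_nonneg _ _))]
  exact w0_sq_ker_le hp0 hs0.le hs1.le le_rfl hx h

theorem int_sq_w0 {p s : ℝ} (hp : Expo E p) (hps : p = Module.finrank ℝ E + 2 * s) :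
    Integrable (fun q : E × E => (w0 s q.1 - w0 s (q.1 + q.2)) ^ 2 * ker p q.2)
      (volume.prod volume) := by
  have hs0 : 0 < s := by linarith [hp.lo]
  have hs1 : s < 1 := by linarith [hp.hi]
  have hp0 : p ≠ 0 := by linarith [hp.two_lt]
  set σ := min 1 (s + 1 / 4) with hσ
  have hσ1 : σ ≤ 1 := min_le_left _ _
  have hσ2 : σ ≤ s + 1 / 4 := min_le_right _ _
  have hsσ : s < σ := lt_min hs1 (by linarith)
  have hJ := integrable_Jk hp hps hsσ hσ1
  have hD : Integrable ((ball (0 : E) 1).indicator fun x => 4 * g0 x ^ (2 * (s - σ))) :=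
    IntegrableOn.integrable_indicator ((integrableOn_g0_rpow (η := 2 * (s - σ)) hp.two
      (by linarith) (by linarith)).const_mul 4) measurableSet_ball
  refine Integrable.mono' ((hD.mul_prod hJ).add (integrable_prod_add hD hJ))
    (measurable_sq_ker (continuous_w0 hs0.le).measurable p).aestronglyMeasurable
    (Eventually.of_forall fun q => ?_)
  rw [Real.norm_of_nonneg (mul_nonneg (sq_nonneg _) (ker_nonneg _ _))]
  have hn : ∀ x : E, 0 ≤ (ball (0 : E) 1).indicator (fun x => 4 * g0 x ^ (2 * (s - σ))) x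
      * Jk p σ q.2 := fun x => mul_nonneg (indicator_nonneg (fun y _ =>
        mul_nonneg (by norm_num) (Real.rpow_nonneg (g0_nonneg y) _)) x) (Jk_nonneg _ _ _)
  simp only [Pi.add_apply]
  rcases lt_or_ge ‖q.1‖ 1 with h1 | h1
  · have := w0_sq_ker_le hp0 hs0.le hsσ.le hσ1 h1 q.2
    rw [indicator_of_mem (by simpa using h1)]
    linarith [hn (q.1 + q.2)]
  · rcases lt_or_ge ‖q.1 + q.2‖ 1 with h2 | h2
    · have := w0_sq_ker_le hp0 hs0.le hsσ.le hσ1 h2 (-q.2)
      rw [add_neg_cancel_right, ker_neg, Jk_neg, ← neg_sub, neg_sq] at this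
      rw [indicator_of_mem (s := ball (0 : E) 1) (a := q.1 + q.2) (by simpa using h2)]
      linarith [hn q.1]
    · rw [w0_zero hs0 h1, w0_zero hs0 h2]
      simpa using add_nonneg (hn q.1) (hn (q.1 + q.2))

/-- The gradient square of `w0` lies in every `L^m` of the ball, `m` finite. -/
theorem memLp_bil_w0 {p s : ℝ} (hp : Expo E p) (hps : p = Module.finrank ℝ E + 2 * s)
    {m : ENNReal} (hm : m ≠ ⊤) :
    MemLp (fun x : E => ∫ h, (w0 s x - w0 s (x + h)) ^ 2 * ker p h) m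
      (volume.restrict (ball 0 1)) := by
  have hs0 : 0 < s := by linarith [hp.lo]
  have hs1 : s < 1 := by linarith [hp.hi]
  have hp0 : p ≠ 0 := by linarith [hp.two_lt]
  have hmeas : Measurable (fun x : E => ∫ h, (w0 s x - w0 s (x + h)) ^ 2 * ker p h) :=
    (StronglyMeasurable.integral_prod_right' (ν := (volume : Measure E))
      (measurable_sq_ker (continuous_w0 hs0.le).measurable p).stronglyMeasurable).measurable
  rcases eq_or_ne m 0 with rfl | hm0
  · exact memLp_zero_iff_aestronglyMeasurable.mpr hmeas.aestronglyMeasurable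
  have hr : 0 < m.toReal := ENNReal.toReal_pos hm0 hm
  set σ := min 1 (s + 1 / (4 * m.toReal)) with hσ
  have hσ1 : σ ≤ 1 := min_le_left _ _
  have hσ2 : σ ≤ s + 1 / (4 * m.toReal) := min_le_right _ _
  have hsσ : s < σ := lt_min hs1 (by have : 0 < 1 / (4 * m.toReal) := by positivity
                                     linarith)
  have hJ := integrable_Jk hp hps hsσ hσ1
  have hg : Measurable fun x : E => g0 x ^ (2 * (s - σ)) := continuous_g0.measurable.pow_const _
  have hD : MemLp (fun x : E => g0 x ^ (2 * (s - σ))) m (volume.restrict (ball 0 1)) := by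
    rw [← memLp_norm_rpow_iff hg.aestronglyMeasurable hm0 hm, ENNReal.div_self hm0 hm,
      memLp_one_iff_integrable]
    have h1 : -1 < 2 * (s - σ) * m.toReal := by
      have : (σ - s) * m.toReal ≤ 1 / (4 * m.toReal) * m.toReal := by gcongr; linarith
      rw [show 1 / (4 * m.toReal) * m.toReal = 1 / 4 by field_simp] at this
      nlinarith
    refine (integrableOn_g0_rpow hp.two h1 (by nlinarith)).congr (Eventually.of_forall fun x => ?_)
    simp only
    rw [Real.norm_of_nonneg (Real.rpow_nonneg (g0_nonneg x) _), ← Real.rpow_mul (g0_nonneg x)]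
  refine MemLp.of_le_mul (c := 4 * ∫ h : E, Jk p σ h) hD hmeas.aestronglyMeasurable ?_
  rw [ae_restrict_iff' measurableSet_ball]
  refine Eventually.of_forall fun x hx => ?_
  have hx' : ‖x‖ < 1 := by simpa using hx
  refine (norm_integral_le_of_norm_le (hJ.const_mul (4 * g0 x ^ (2 * (s - σ))))
    (Eventually.of_forall fun h => ?_)).trans (le_of_eq ?_)
  · rw [Real.norm_of_nonneg (mul_nonneg (sq_nonneg _) (ker_nonneg _ _))]
    exact w0_sq_ker_le hp0 hs0.le hsσ.le hσ1 hx' h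
  · rw [integral_const_mul, Real.norm_of_nonneg (Real.rpow_nonneg (g0_nonneg x) _)]
    ring

end Pool.Agent.P.MP_c7f95f_an
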