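import Pool.Agent.P.MP_c7f95f_an.T.IBP2
import Pool.Agent.P.MP_c7f95f_an.T.EstSq

/-!
Functions of the class `Good` that satisfy the equation pointwise are regular weak solutions.
-/

namespace Pool.Agent.P.MP_c7f95f_an

open MeasureTheory Set Filter Topology Metric

section general

variable {E : Type*} [NormedAddCommGroup E] [InnerProductSpace ℝ E] [FiniteDimensional ℝ E]
  [MeasurableSpace E] [BorelSpace E]

/-- The unnormalised gradient square. -/
noncomputable def Gq (p : ℝ) (u : E → ℝ) (x : E) : ℝ := ∫ h, (u x - u (x + h)) ^ 2 * ker p h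

theorem Gq_nonneg (p : ℝ) (u : E → ℝ) (x : E) : 0 ≤ Gq p u x :=
  integral_nonneg fun h => mul_nonneg (sq_nonneg _) (ker_nonneg p h)

theorem measurable_Gq {u : E → ℝ} (hu : Measurable u) (p : ℝ) : Measurable (Gq p u) :=
  (StronglyMeasurable.integral_prod_right' (ν := (volume : Measure E))
    (measurable_sq_ker hu p).stronglyMeasurable).measurable

theorem S_zero_eq {p : ℝ} (hp0 : p ≠ 0) (u : E → ℝ) (x : E) :
    S p 0 u x = ∫ h, sd u x h * ker p h := by
  simp only [S, wt_zero hp0]

theorem Good.of_contDiff {p : ℝ} (hp : Expo E p) {u : E → ℝ} (hu : ContDiff ℝ 2 u)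
    (hs : tsupport u ⊆ ball 0 1) : Good p u := by
  have hp0 : p ≠ 0 := by linarith [hp.two_lt]
  have hz : ∀ x, 1 ≤ ‖x‖ → u x = 0 := fun x hx =>
    image_eq_zero_of_notMem_tsupport fun h => by
      have := hs h
      simp only [mem_ball, dist_zero_right] at this
      linarith
  have hc : HasCompactSupport u := HasCompactSupport.intro (isCompact_closedBall (0 : E) 1)
    fun x hx => hz x (le_of_lt (by simpa using hx))
  refine ⟨hu.continuous, hz, ?_, ?_⟩
  · simpa only [wt_zero hp0] using (Nice.of_contDiff hu hc).integrable_prod hp 0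
  · obtain ⟨M, hM, hb⟩ := exists_sq_bound hu hc
    refine integrable_prod_of_cut hp (M := M) (measurable_sq_ker hu.continuous.measurable p)
      hc.isCompact (fun q => ?_) fun q h1 h2 _ => ?_
    · rw [abs_of_nonneg (mul_nonneg (sq_nonneg _) (ker_nonneg _ _)), ← mul_assoc]
      exact mul_le_mul_of_nonneg_right (hb _ _) (ker_nonneg _ _)
    · simp [image_eq_zero_of_notMem_tsupport h1, image_eq_zero_of_notMem_tsupport h2]

theorem Good.const_mul {p : ℝ} {u : E → ℝ} (hu : Good p u) (t : ℝ) :
    Good p (fun x => t * u x) := by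
  refine ⟨continuous_const.mul hu.cont, fun x hx => by rw [hu.zero x hx, mul_zero],
    (hu.int_sd.const_mul t).congr (Eventually.of_forall fun q => ?_),
    (hu.int_sq.const_mul (t ^ 2)).congr (Eventually.of_forall fun q => ?_)⟩
  · simp only [sd]; ring
  · simp only; ring

theorem Good.add {p : ℝ} {u v : E → ℝ} (hu : Good p u) (hv : Good p v) :
    Good p (fun x => u x + v x) := by
  refine ⟨hu.cont.add hv.cont, fun x hx => by rw [hu.zero x hx, hv.zero x hx, add_zero],
    (hu.int_sd.add hv.int_sd).congr (Eventually.of_forall fun q => ?_), ?_⟩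
  · simp only [sd, Pi.add_apply]; ring
  · refine Integrable.mono' ((hu.int_sq.add hv.int_sq).const_mul 2)
      (measurable_sq_ker (hu.cont.add hv.cont).measurable p).aestronglyMeasurable
      (Eventually.of_forall fun q => ?_)
    rw [Real.norm_of_nonneg (mul_nonneg (sq_nonneg _) (ker_nonneg _ _))]
    simp only [Pi.add_apply]
    rw [← add_mul, ← mul_assoc]
    refine mul_le_mul_of_nonneg_right ?_ (ker_nonneg _ _)
    nlinarith [sq_nonneg (u q.1 - u (q.1 + q.2) - (v q.1 - v (q.1 + q.2)))]

omit [InnerProductSpace ℝ E] [FiniteDimensional ℝ E] [MeasurableSpace E] [BorelSpace E] in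
theorem sd_sq (u : E → ℝ) (x h : E) : sd (fun z => u z ^ 2) x h =
    2 * u x * sd u x h - (u x - u (x + h)) ^ 2 - (u x - u (x + -h)) ^ 2 := by
  simp only [sd, ← sub_eq_add_neg]; ring

theorem Good.sq {p : ℝ} {u : E → ℝ} (hu : Good p u) : Good p (fun x => u x ^ 2) := by
  obtain ⟨M, hM⟩ := hu.compact.exists_bound_of_continuous hu.cont
  refine ⟨hu.cont.pow 2, fun x hx => by simp [hu.zero x hx], ?_, ?_⟩
  · have h1 := (integrable_bdd_mul_prod hu.cont.measurable hM hu.int_sd).const_mul 2
    have h2 : Integrable (fun q : E × E => (u q.1 - u (q.1 + -q.2)) ^ 2 * ker p (-q.2))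
        (volume.prod volume) :=
      ((MeasurePreserving.id volume).prod (Measure.measurePreserving_neg volume)).integrable_comp_of_integrable
        hu.int_sq
    refine ((h1.sub hu.int_sq).sub h2).congr (Eventually.of_forall fun q => ?_)
    simp only [sd_sq, Pi.sub_apply, ker_neg]; ring
  · refine Integrable.mono' (hu.int_sq.const_mul ((M + M) ^ 2))
      (measurable_sq_ker (hu.cont.pow 2).measurable p).aestronglyMeasurable
      (Eventually.of_forall fun q => ?_)
    rw [Real.norm_of_nonneg (mul_nonneg (sq_nonneg _) (ker_nonneg _ _)), ← mul_assoc]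
    refine mul_le_mul_of_nonneg_right ?_ (ker_nonneg _ _)
    have h3 : |u q.1 + u (q.1 + q.2)| ≤ M + M := (abs_add_le _ _).trans (add_le_add (hM _) (hM _))
    have h4 : (u q.1 + u (q.1 + q.2)) ^ 2 ≤ (M + M) ^ 2 :=
      sq_le_sq' (abs_le.mp h3).1 (abs_le.mp h3).2
    calc (u q.1 ^ 2 - u (q.1 + q.2) ^ 2) ^ 2
        = (u q.1 + u (q.1 + q.2)) ^ 2 * (u q.1 - u (q.1 + q.2)) ^ 2 := by ring
      _ ≤ _ := mul_le_mul_of_nonneg_right h4 (sq_nonneg _)

end general

variable {N : ℕ} [NeZero N]

theorem hasGradSq_of_integrable {s : ℝ} (hp0 : (N : ℝ) + 2 * s ≠ 0) {u : Sp N → ℝ}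
    (hu : Measurable u) {x : Sp N}
    (hi : Integrable (fun h => (u x - u (x + h)) ^ 2 * ker ((N : ℝ) + 2 * s) h)) :
    HasGradSq s u x (aConst N s / 2 * Gq ((N : ℝ) + 2 * s) u x) := by
  set p := (N : ℝ) + 2 * s
  have hm : ∀ t, Measurable (fun h => (u x - u (x + h)) ^ 2 * wt p t h) := fun t =>
    ((measurable_const.sub (hu.comp (measurable_const_add x))).pow_const 2).mul (measurable_wt p t)
  have hbd : ∀ t h, ‖(u x - u (x + h)) ^ 2 * wt p t h‖ ≤ (u x - u (x + h)) ^ 2 * ker p h :=
    fun t h => by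
      rw [Real.norm_of_nonneg (mul_nonneg (sq_nonneg _) (wt_nonneg _ _ _))]
      exact mul_le_mul_of_nonneg_left (wt_le_ker _ _ _) (sq_nonneg _)
  refine ⟨fun ε _ => integrableOn_trunc (g := fun z => (u x - u z) ^ 2)
    (hi.mono' (hm ε).aestronglyMeasurable (Eventually.of_forall (hbd ε))), ?_⟩
  have hlim : Tendsto (fun t => ∫ h, (u x - u (x + h)) ^ 2 * wt p t h) (𝓝[>] 0)
      (𝓝 (Gq p u x)) :=
    tendsto_integral_filter_of_dominated_convergence _
      (Eventually.of_forall fun t => (hm t).aestronglyMeasurable)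
      (Eventually.of_forall fun t => Eventually.of_forall (hbd t)) hi
      (Eventually.of_forall fun h => by
        simpa only [wt_zero hp0] using (tendsto_wt hp0 h).const_mul ((u x - u (x + h)) ^ 2))
  refine (hlim.const_mul (aConst N s / 2)).congr fun ε => ?_
  rw [setIntegral_trunc p ε (fun z => (u x - u z) ^ 2)]

theorem Good.regular (hN : 2 ≤ N) {s : ℝ} (hs : s ∈ Ioo (1 / 2 : ℝ) 1) {u : Sp N → ℝ}
    (hu : Good ((N : ℝ) + 2 * s) u) {K : ℝ} (hH : ∀ x y, |u x - u y| ≤ K * ‖x - y‖ ^ s)
    {μ c f : Sp N → ℝ} {lam : ℝ}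
    (heq : ∀ᵐ x ∂(volume.restrict (ball (0 : Sp N) 1)), lam * f x + c x * u x
      + μ x * (aConst N s / 2 * Gq ((N : ℝ) + 2 * s) u x)
        = aConst N s / 2 * S ((N : ℝ) + 2 * s) 0 u x) :
    IsRegularSol s (ball 0 1) μ c f lam u := by
  have hp := expo_of hN hs
  have ha := aConst_pos hN hs
  have hp0 : (N : ℝ) + 2 * s ≠ 0 := by linarith [hp.two_lt]
  have hgs := fun x => hasGradSq_of_integrable hp0 hu.cont.measurable (x := x)
  set p := (N : ℝ) + 2 * s with hpdef
  set a := aConst N s with hadef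
  have hui : Integrable u := hu.cont.integrable_of_hasCompactSupport hu.compact
  refine ⟨⟨fun x hx => hu.zero x (by simpa using hx), hui.integrableOn,
    fun x => a / 2 * Gq p u x, ae_restrict_of_ae (hu.int_sq.prod_right_ae.mono hgs),
    (hu.int_sq.integral_prod_left.const_mul (a / 2)).integrableOn, ?_⟩,
    hu.cont.memLp_of_hasCompactSupport hu.compact, ?_, ?_⟩
  · rintro φ L ⟨hφ, hφs, hL, C, hC⟩
    have hK : IsCompact (closure (ball (0 : Sp N) 1)) := isBounded_ball.isCompact_closure
    have hφc : HasCompactSupport φ := HasCompactSupport.intro hK fun x hx => by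
      by_contra h
      exact hx (hφs h)
    obtain ⟨B, hB⟩ := hφc.exists_bound_of_continuous hφ
    have key := Good.by_parts hp (G := fun x => 2 / a * L x) hφ hB (C := 2 / a * C)
      (fun x hx => ⟨by
        rw [abs_mul, abs_of_pos (by positivity)]
        exact mul_le_mul_of_nonneg_left (hC x hx) (by positivity), by
        refine ((hL x hx).const_mul (2 / a)).congr' ?_
        filter_upwards [self_mem_nhdsWithin] with ε hε
        rw [trunc_eq_S hp hε hφ.measurable hB]
        field_simp
        rfl⟩) hu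
    have hcl : closure (ball (0 : Sp N) 1) =ᵐ[volume] ball (0 : Sp N) 1 := by
      rw [closure_eq_self_union_frontier]
      exact union_ae_eq_left_of_ae_eq_empty (ae_eq_empty.mpr
        ((convex_ball (0 : Sp N) 1).addHaar_frontier volume))
    have e1 : ∫ x in ball 0 1, u x * L x = a / 2 * ∫ x in ball 0 1, u x * (2 / a * L x) := by
      rw [← integral_const_mul]
      congr 1; ext x
      field_simp
    have e2 : ∫ x in ball 0 1, a / 2 * (φ x * S p 0 u x) = a / 2 * ∫ x, φ x * S p 0 u x := by
      rw [← setIntegral_congr_set hcl, setIntegral_eq_integral_of_forall_compl_eq_zero fun x hx => by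
        rw [show φ x = 0 by by_contra h; exact hx (hφs h), zero_mul, mul_zero], integral_const_mul]
    rw [e1, key, ← e2]
    refine integral_congr_ae (heq.mono fun x hx => ?_)
    simp only
    rw [hx]; ring
  · refine ((measurePreserving_prod_sub volume volume).integrable_comp_of_integrable hu.int_sq).congr
      (Eventually.of_forall fun q => ?_)
    simp [ker, norm_sub_rev, div_eq_mul_inv, hpdef]
  · have hs0 : 0 < s := by linarith [hs.1]
    refine ⟨NNReal.mk s hs0.le, K.toNNReal, hs0, hs.2.le, fun x _ y _ => ?_⟩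
    rw [edist_dist, edist_dist, Real.dist_eq, dist_eq_norm, NNReal.coe_mk,
      ENNReal.ofReal_rpow_of_nonneg (norm_nonneg _) hs0.le, ENNReal.coe_nnreal_eq,
      ← ENNReal.ofReal_mul (NNReal.coe_nonneg _)]
    refine ENNReal.ofReal_le_ofReal ((hH x y).trans ?_)
    exact mul_le_mul_of_nonneg_right (Real.le_coe_toNNReal K) (Real.rpow_nonneg (norm_nonneg _) _)

end Pool.Agent.P.MP_c7f95f_an
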