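import Pool.Agent.P.MP_c7f95f_an.T.Natural

/-!
Two solutions with a constant coefficient, from the pointwise identity.
-/

namespace Pool.Agent.P.MP_c7f95f_an

open MeasureTheory Set Filter Topology Metric

section general

variable {E : Type*} [NormedAddCommGroup E] [InnerProductSpace ℝ E] [FiniteDimensional ℝ E]
  [MeasurableSpace E] [BorelSpace E]

theorem integrable_bil {p : ℝ} {u v : E → ℝ} (hu : Measurable u) (hv : Measurable v) {x : E}
    (h1 : Integrable (fun h => (u x - u (x + h)) ^ 2 * ker p h))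
    (h2 : Integrable (fun h => (v x - v (x + h)) ^ 2 * ker p h)) :
    Integrable (fun h => (u x - u (x + h)) * (v x - v (x + h)) * ker p h) := by
  refine (h1.add h2).mono' (((measurable_const.sub (hu.comp (measurable_const_add x))).mul
    (measurable_const.sub (hv.comp (measurable_const_add x)))).mul
      (measurable_ker p)).aestronglyMeasurable (Eventually.of_forall fun h => ?_)
  rw [Pi.add_apply, ← add_mul, norm_mul, Real.norm_of_nonneg (ker_nonneg _ _), Real.norm_eq_abs]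
  refine mul_le_mul_of_nonneg_right (abs_le.mpr ⟨?_, ?_⟩) (ker_nonneg _ _)
  · nlinarith [sq_nonneg (u x - u (x + h) + (v x - v (x + h))), sq_nonneg (u x - u (x + h)),
      sq_nonneg (v x - v (x + h))]
  · nlinarith [sq_nonneg (u x - u (x + h) - (v x - v (x + h))), sq_nonneg (u x - u (x + h)),
      sq_nonneg (v x - v (x + h))]

theorem smooth_facts {p : ℝ} (hp : Expo E p) {u : E → ℝ} (hu : ContDiff ℝ 2 u)
    (hs : tsupport u ⊆ ball 0 1) :
    (∀ x, Integrable (fun h => sd u x h * ker p h)) ∧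
    (∀ x, Integrable (fun h => (u x - u (x + h)) ^ 2 * ker p h)) ∧
    ∃ M : ℝ, (∀ x, |u x| ≤ M) ∧ (∀ x, |S p 0 u x| ≤ M) ∧ (∀ x, Gq p u x ≤ M) ∧
      ∀ s : ℝ, 0 ≤ s → s ≤ 1 → ∀ x y, |u x - u y| ≤ M * ‖x - y‖ ^ s := by
  have hc := (Good.of_contDiff hp hu hs).compact
  have hn := Nice.of_contDiff hu hc
  obtain ⟨M₁, hM₁, h1⟩ := hn.bd
  obtain ⟨M₂, hM₂, h2⟩ := exists_sq_bound hu hc
  obtain ⟨M₃, h3⟩ := hn.exists_bound_S hp
  obtain ⟨B, hB⟩ := hc.exists_bound_of_continuous hu.continuous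
  have hJ := integrable_cut_ker hp
  have hb : ∀ x h, ‖(u x - u (x + h)) ^ 2 * ker p h‖ ≤ M₂ * (cut h * ker p h) := fun x h => by
    rw [Real.norm_of_nonneg (mul_nonneg (sq_nonneg _) (ker_nonneg _ _)), ← mul_assoc]
    exact mul_le_mul_of_nonneg_right (h2 _ _) (ker_nonneg _ _)
  have hB0 : 0 ≤ B := (norm_nonneg _).trans (hB 0)
  have hM₃ : 0 ≤ M₃ := (abs_nonneg _).trans (h3 0 0)
  have hI : 0 ≤ M₂ * ∫ h : E, cut h * ker p h :=
    mul_nonneg hM₂ (integral_nonneg fun h => mul_nonneg (cut_nonneg h) (ker_nonneg p h))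
  have hsq := Real.sqrt_nonneg M₂
  refine ⟨fun x => (hJ.const_mul M₁).mono' ((measurable_sd_right hu.continuous.measurable x).mul
      (measurable_ker p)).aestronglyMeasurable (Eventually.of_forall fun h => ?_),
    fun x => (hJ.const_mul M₂).mono' ((measurable_sq_ker hu.continuous.measurable p).comp
      (measurable_const.prodMk measurable_id)).aestronglyMeasurable (Eventually.of_forall (hb x)),
    B + M₃ + M₂ * (∫ h : E, cut h * ker p h) + √M₂, fun x => ?_, fun x => ?_, fun x => ?_,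
    fun s hs0 hs1 x y => ?_⟩
  · rw [norm_mul, Real.norm_of_nonneg (ker_nonneg _ _), ← mul_assoc]
    exact mul_le_mul_of_nonneg_right (h1 _ _) (ker_nonneg _ _)
  · linarith [show |u x| ≤ B from hB x]
  · linarith [h3 0 x]
  · have := norm_integral_le_of_norm_le (hJ.const_mul M₂) (Eventually.of_forall (hb x))
    rw [integral_const_mul] at this
    linarith [(le_abs_self (Gq p u x)).trans this]
  · have h4 := h2 x (y - x)
    rw [add_sub_cancel] at h4
    have h5 : cut (y - x) ≤ (‖x - y‖ ^ s) ^ 2 := by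
      rw [norm_sub_rev]
      rcases le_total 1 ‖y - x‖ with h | h
      · exact (cut_le_one _).trans (one_le_pow₀ (Real.one_le_rpow h hs0))
      · refine (cut_le_sq _).trans (pow_le_pow_left₀ (norm_nonneg _) ?_ 2)
        conv_lhs => rw [← Real.rpow_one ‖y - x‖]
        exact Real.rpow_le_rpow_of_exponent_ge' (norm_nonneg _) h hs0 hs1
    have h6 : 0 ≤ ‖x - y‖ ^ s := Real.rpow_nonneg (norm_nonneg _) _
    have h7 : |u x - u y| ≤ √M₂ * ‖x - y‖ ^ s := by
      refine abs_le_of_sq_le_sq' ?_ (by positivity) |> abs_le.mpr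
      rw [mul_pow, Real.sq_sqrt hM₂]
      exact h4.trans (mul_le_mul_of_nonneg_left h5 hM₂)
    exact h7.trans (mul_le_mul_of_nonneg_right (by linarith) h6)

omit [InnerProductSpace ℝ E] [FiniteDimensional ℝ E] [BorelSpace E] [NormedAddCommGroup E] in
theorem memLp_const_add {ν : Measure E} [IsFiniteMeasure ν] {g : E → ℝ} {m : ENNReal}
    (hg : MemLp g m ν) (b : ℝ) : MemLp (fun x => b + g x) m ν :=
  (memLp_const b).add hg

omit [InnerProductSpace ℝ E] [FiniteDimensional ℝ E] [BorelSpace E] [NormedAddCommGroup E] in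
theorem memLp_combo {ν : Measure E} [IsFiniteMeasure ν] {g₁ g₂ g₃ : E → ℝ} {m : ENNReal}
    (h1 : MemLp g₁ ⊤ ν) (h2 : MemLp g₂ m ν) (h3 : MemLp g₃ ⊤ ν) (r a b : ℝ) :
    MemLp (fun x => r * (a * g₁ x - b * (a * g₂ x) - g₃ x)) m ν :=
  ((((h1.mono_exponent le_top).const_mul a).sub ((h2.const_mul a).const_mul b)).sub
    (h3.mono_exponent le_top)).const_mul r

end general

variable {N : ℕ} [NeZero N]

theorem const_of (hN : 2 ≤ N) {s : ℝ} (hs : s ∈ Ioo (1 / 2 : ℝ) 1) {k : ℝ}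
    (hget : ∀ x ∈ ball (0 : Sp N) 1, Integrable (fun h => sd (w0 s) x h * ker ((N : ℝ) + 2 * s) h)
      ∧ S ((N : ℝ) + 2 * s) 0 (w0 s) x = k)
    (hw : Good ((N : ℝ) + 2 * s) (w0 s : Sp N → ℝ)) {lam : ℝ} (hlam : lam ≠ 0) {μ : ℝ}
    (hμ : μ ≠ 0) {P H c : Sp N → ℝ} {e C : ℝ} (hP : ContDiff ℝ 2 P) (hPs : tsupport P ⊆ ball 0 1)
    (hH : ContDiff ℝ 2 H) (hHs : tsupport H ⊆ ball 0 1) (he : 0 < e) (hH0 : ∀ x, 0 ≤ H x)
    (hcm : Measurable c) (hC : ∀ x, -C ≤ c x ∧ c x ≤ 0)
    (hid : ∀ x ∈ ball (0 : Sp N) 1, 1 / 2 * S ((N : ℝ) + 2 * s) 0 H x + e * (k / 2)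
      - c x * (H x + e * w0 s x)
        = Bil ((N : ℝ) + 2 * s) P H x + e * Bil ((N : ℝ) + 2 * s) P (w0 s) x) :
    ∃ c f u v : Sp N → ℝ, MemLp c ⊤ (volume.restrict (ball 0 1)) ∧ (∀ x, c x ≤ 0) ∧
      (∀ m : ENNReal, m ≠ ⊤ → MemLp f m (volume.restrict (ball 0 1))) ∧
      IsRegularSol s (ball 0 1) (fun _ => μ) c f lam u ∧
      IsRegularSol s (ball 0 1) (fun _ => μ) c f lam v ∧ ∀ x ∈ ball (0 : Sp N) 1, v x < u x := by
  have hp := expo_of hN hs
  have ha := aConst_pos hN hs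
  have hps : (N : ℝ) + 2 * s = Module.finrank ℝ (Sp N) + 2 * s := by simp
  have hs0 : 0 < s := by linarith [hs.1]
  have hreg := fun (u : Sp N → ℝ) (hu : Good ((N : ℝ) + 2 * s) u) (K : ℝ)
    (hH : ∀ x y, |u x - u y| ≤ K * ‖x - y‖ ^ s) (c f : Sp N → ℝ) =>
      Good.regular hN hs hu hH (μ := fun _ => μ) (c := c) (f := f) (lam := lam)
  set p := (N : ℝ) + 2 * s with hpdef
  set a := aConst N s with hadef
  have hp0 : p ≠ 0 := by linarith [hp.two_lt]
  have : IsFiniteMeasure (volume.restrict (ball (0 : Sp N) 1)) :=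
    ⟨by simpa using measure_ball_lt_top⟩
  obtain ⟨iP, jP, MP, bP, sP, gP, lP⟩ := smooth_facts hp hP hPs
  obtain ⟨iH, jH, MH, bH, sH, gH, lH⟩ := smooth_facts hp hH hHs
  have mP := hP.continuous.measurable
  have mH := hH.continuous.measurable
  have mw := hw.cont.measurable
  set u : ℝ → Sp N → ℝ := fun τ x => μ⁻¹ * P x + τ * (H x + e * w0 s x) with hu
  have hgood : ∀ τ, Good p (u τ) := fun τ =>
    ((Good.of_contDiff hp hP hPs).const_mul μ⁻¹).add
      (((Good.of_contDiff hp hH hHs).add (hw.const_mul e)).const_mul τ)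
  have hhol : ∀ τ x y, |u τ x - u τ y| ≤ (|μ⁻¹| * MP + |τ| * (MH + e * 2)) * ‖x - y‖ ^ s :=
    fun τ x y => by
      have e1 : u τ x - u τ y = μ⁻¹ * (P x - P y) + τ * ((H x - H y) + e * (w0 s x - w0 s y)) := by
        simp only [hu]; ring
      have h1 := mul_le_mul_of_nonneg_left (lP s hs0.le hs.2.le x y) (abs_nonneg μ⁻¹)
      have h2 := mul_le_mul_of_nonneg_left (w0_holder hs0.le hs.2.le x y) he.le
      have h3 : |(H x - H y) + e * (w0 s x - w0 s y)| ≤ (MH + e * 2) * ‖x - y‖ ^ s := by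
        refine (abs_add_le _ _).trans ?_
        rw [abs_mul, abs_of_pos he]
        linarith [lH s hs0.le hs.2.le x y]
      rw [e1]
      refine (abs_add_le _ _).trans ?_
      rw [abs_mul, abs_mul]
      linarith [mul_le_mul_of_nonneg_left h3 (abs_nonneg τ)]
  have hS : ∀ τ, ∀ x ∈ ball (0 : Sp N) 1,
      S p 0 (u τ) x = μ⁻¹ * S p 0 P x + τ * (S p 0 H x + e * k) := fun τ x hx => by
    obtain ⟨h1, h2⟩ := hget x hx
    have h3 : Integrable (fun h => sd H x h * ker p h + e * (sd (w0 s) x h * ker p h)) :=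
      (iH x).add (h1.const_mul e)
    rw [← h2]
    simp only [S_zero_eq hp0]
    rw [← integral_const_mul e, ← integral_add (iH x) (h1.const_mul e), ← integral_const_mul,
      ← integral_const_mul, ← integral_add ((iP x).const_mul _) (h3.const_mul _)]
    congr 1; ext h
    simp only [sd, hu]; ring
  have hpt : ∀ τ : ℝ, τ ^ 2 = 1 → ∀ x h, (u τ x - u τ (x + h)) ^ 2 * ker p h ≤
      3 * (μ⁻¹ ^ 2 * ((P x - P (x + h)) ^ 2 * ker p h) + (H x - H (x + h)) ^ 2 * ker p h
        + e ^ 2 * ((w0 s x - w0 s (x + h)) ^ 2 * ker p h)) := fun τ hτ x h => by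
    have e1 : u τ x - u τ (x + h) = μ⁻¹ * (P x - P (x + h)) + τ * (H x - H (x + h))
        + τ * (e * (w0 s x - w0 s (x + h))) := by
      simp only [hu]; ring
    have e2 : ∀ A B D : ℝ, (A + τ * B + τ * D) ^ 2 ≤ 3 * (A ^ 2 + B ^ 2 + D ^ 2) := fun A B D => by
      have e3 : (τ * B) ^ 2 = B ^ 2 := by rw [mul_pow, hτ, one_mul]
      have e4 : (τ * D) ^ 2 = D ^ 2 := by rw [mul_pow, hτ, one_mul]
      nlinarith [sq_nonneg (A - τ * B), sq_nonneg (A - τ * D), sq_nonneg (τ * B - τ * D)]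
    rw [e1]
    refine (mul_le_mul_of_nonneg_right (e2 _ _ _) (ker_nonneg _ _)).trans (le_of_eq ?_)
    ring
  have hmaj : ∀ x ∈ ball (0 : Sp N) 1, Integrable (fun h =>
      3 * (μ⁻¹ ^ 2 * ((P x - P (x + h)) ^ 2 * ker p h) + (H x - H (x + h)) ^ 2 * ker p h
        + e ^ 2 * ((w0 s x - w0 s (x + h)) ^ 2 * ker p h))) := fun x hx =>
    ((((jP x).const_mul _).add (jH x)).add
      ((integrable_w0_sq hp hps (by simpa using hx)).const_mul _)).const_mul 3
  have hint : ∀ τ : ℝ, τ ^ 2 = 1 → ∀ x ∈ ball (0 : Sp N) 1,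
      Integrable (fun h => (u τ x - u τ (x + h)) ^ 2 * ker p h) := fun τ hτ x hx =>
    (hmaj x hx).mono' ((measurable_sq_ker (hgood τ).cont.measurable p).comp
      (measurable_const.prodMk measurable_id)).aestronglyMeasurable
      (Eventually.of_forall fun h => by
        rw [Real.norm_of_nonneg (mul_nonneg (sq_nonneg _) (ker_nonneg _ _))]
        exact hpt τ hτ x h)
  have hG : ∀ x ∈ ball (0 : Sp N) 1, Gq p (u 1) x - Gq p (u (-1)) x =
      4 * μ⁻¹ * (Bil p P H x + e * Bil p P (w0 s) x) := fun x hx => by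
    have jw := integrable_w0_sq hp hps (x := x) (by simpa using hx)
    have b1 := integrable_bil mP mH (jP x) (jH x)
    have b2 := (integrable_bil mP mw (jP x) jw).const_mul e
    rw [Gq, Gq, Bil, Bil, ← integral_sub (hint 1 (by norm_num) x hx) (hint (-1) (by norm_num) x hx),
      ← integral_const_mul e, ← integral_add b1 b2, ← integral_const_mul]
    congr 1; ext h
    simp only [hu]; ring
  have hGb : ∀ x ∈ ball (0 : Sp N) 1, Gq p (u 1) x ≤
      3 * (μ⁻¹ ^ 2 * MP + MH) + 3 * e ^ 2 * Gq p (w0 s) x := fun x hx => by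
    have jw := (integrable_w0_sq hp hps (x := x) (by simpa using hx)).const_mul (e ^ 2)
    have j1 := (jP x).const_mul (μ⁻¹ ^ 2)
    have j2 : Integrable (fun h => μ⁻¹ ^ 2 * ((P x - P (x + h)) ^ 2 * ker p h)
        + (H x - H (x + h)) ^ 2 * ker p h) := j1.add (jH x)
    have h1 := integral_mono (hint 1 (by norm_num) x hx) (hmaj x hx) (hpt 1 (by norm_num) x)
    rw [integral_const_mul, integral_add j2 jw, integral_add j1 (jH x), integral_const_mul,
      integral_const_mul] at h1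
    have h2 := mul_le_mul_of_nonneg_left (gP x) (sq_nonneg μ⁻¹)
    have h3 := gH x
    unfold Gq at *
    linarith
  have hcL : MemLp (fun x => a * c x) ⊤ (volume.restrict (ball (0 : Sp N) 1)) :=
    (memLp_top_of_bound hcm.aestronglyMeasurable C (Eventually.of_forall fun x =>
      abs_le.mpr ⟨(hC x).1, by linarith [(hC x).1, (hC x).2]⟩)).const_mul a
  refine ⟨fun x => a * c x,
    fun x => lam⁻¹ * (a / 2 * S p 0 (u 1) x - μ * (a / 2 * Gq p (u 1) x) - a * c x * u 1 x),
    u 1, u (-1), hcL, fun x => mul_nonpos_of_nonneg_of_nonpos ha.le (hC x).2, fun m hm => ?_,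
    hreg _ (hgood 1) _ (hhol 1) _ _ (Eventually.of_forall fun x => ?_),
    hreg _ (hgood (-1)) _ (hhol (-1)) _ _ ?_, fun x hx => ?_⟩
  · have h1 : MemLp (S p 0 (u 1)) ⊤ (volume.restrict (ball (0 : Sp N) 1)) := by
      refine memLp_top_of_bound (measurable_S p 0 (hgood 1).cont.measurable).aestronglyMeasurable
        (|μ⁻¹| * MP + (MH + |e * k|)) ?_
      filter_upwards [ae_restrict_mem measurableSet_ball] with x hx
      rw [hS 1 x hx, one_mul, Real.norm_eq_abs]
      refine (abs_add_le _ _).trans (add_le_add ?_ ((abs_add_le _ _).trans (by linarith [sH x])))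
      rw [abs_mul]
      exact mul_le_mul_of_nonneg_left (sP x) (abs_nonneg _)
    have h2 : MemLp (Gq p (u 1)) m (volume.restrict (ball (0 : Sp N) 1)) := by
      have h5 : MemLp (Gq p (w0 s)) m (volume.restrict (ball (0 : Sp N) 1)) :=
        memLp_bil_w0 hp hps hm
      have h6 : MemLp (fun x : Sp N => 3 * (μ⁻¹ ^ 2 * MP + MH) + 3 * e ^ 2 * Gq p (w0 s) x) m
          (volume.restrict (ball (0 : Sp N) 1)) :=
        memLp_const_add (h5.const_mul (3 * e ^ 2)) (3 * (μ⁻¹ ^ 2 * MP + MH))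
      refine MemLp.of_le h6 (measurable_Gq (hgood 1).cont.measurable p).aestronglyMeasurable ?_
      filter_upwards [ae_restrict_mem measurableSet_ball] with x hx
      rw [Real.norm_of_nonneg (Gq_nonneg p (u 1) x), Real.norm_eq_abs]
      exact (hGb x hx).trans (le_abs_self _)
    obtain ⟨B, hB⟩ := (hgood 1).compact.exists_bound_of_continuous (hgood 1).cont
    have h3 : MemLp (u 1) ⊤ (volume.restrict (ball (0 : Sp N) 1)) :=
      memLp_top_of_bound (hgood 1).cont.aestronglyMeasurable B (Eventually.of_forall hB)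
    have h4 : MemLp (fun x => a * c x * u 1 x) ⊤ (volume.restrict (ball (0 : Sp N) 1)) :=
      MemLp.mul' (p := ⊤) (q := ⊤) h3 hcL
    exact memLp_combo h1 h2 h4 lam⁻¹ (a / 2) μ
  · rw [mul_inv_cancel_left₀ hlam]; ring
  · filter_upwards [ae_restrict_mem measurableSet_ball] with x hx
    have h1 := hG x hx
    rw [← hid x hx] at h1
    have h2 : Gq p (u 1) x = Gq p (u (-1)) x + 4 * μ⁻¹ * (1 / 2 * S p 0 H x + e * (k / 2)
      - c x * (H x + e * w0 s x)) := by linarith
    rw [mul_inv_cancel_left₀ hlam, hS 1 x hx, hS (-1) x hx, h2]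
    simp only [hu]
    field_simp
    ring
  · have := mul_pos he (w0_pos s (x := x) (by simpa using hx))
    simp only [hu]
    linarith [hH0 x]

end Pool.Agent.P.MP_c7f95f_an
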