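import Pool.Agent.P.MP_c7f95f_an.T.Polar

/-!
The second difference of `(1 - |x|²)₊ ^ s` is integrable against the kernel on the product space.
-/

namespace Pool.Agent.P.MP_c7f95f_an

open MeasureTheory Set Filter Topology Metric T

variable {E : Type*} [NormedAddCommGroup E] [InnerProductSpace ℝ E] [FiniteDimensional ℝ E]
  [MeasurableSpace E] [BorelSpace E] {s p : ℝ}

theorem integrableOn_abs_one_sub {b : ℝ} (hb : b < 1) :
    IntegrableOn (fun y : ℝ => |1 - y| ^ (-b)) (Ioo 0 3) := by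
  have h1 : IntegrableOn (fun y : ℝ => |y| ^ (-b)) (ball 0 3) :=
    integrableOn_ball_of_norm_le_rpow (C := 1) (α := b) (by simp) (by simpa using hb)
      (Eventually.of_forall fun y => by
        rw [Real.norm_of_nonneg (by positivity), one_mul, Real.norm_eq_abs])
      (Measurable.aestronglyMeasurable (by fun_prop))
  rw [← integrable_indicator_iff measurableSet_ball] at h1
  refine (h1.comp_sub_left 1).integrableOn.congr_fun (fun y hy => ?_) measurableSet_Ioo
  refine indicator_of_mem ?_ _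
  rw [mem_ball_zero_iff, Real.norm_eq_abs, abs_lt]
  constructor <;> linarith [hy.1, hy.2]

theorem integrableOn_abs_one_sub_sq [Nontrivial E] {b : ℝ} (hb0 : 0 ≤ b) (hb : b < 1) :
    IntegrableOn (fun x : E => |1 - ‖x‖ ^ 2| ^ (-b)) (ball 0 3) := by
  rw [integrableOn_fun_norm_addHaar volume (f := fun y : ℝ => |1 - y ^ 2| ^ (-b))]
  refine Integrable.mono' ((integrableOn_abs_one_sub hb).const_mul (3 ^ (Module.finrank ℝ E - 1)))
    (Measurable.aestronglyMeasurable (by fun_prop)) ?_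
  rw [ae_restrict_iff' measurableSet_Ioo]
  refine Eventually.of_forall fun y hy => ?_
  have hy0 := hy.1
  rw [smul_eq_mul, Real.norm_of_nonneg (by positivity)]
  refine mul_le_mul (pow_le_pow_left₀ hy0.le hy.2.le _) ?_ (by positivity) (by positivity)
  rw [show 1 - y ^ 2 = (1 - y) * (1 + y) by ring, abs_mul, Real.mul_rpow (abs_nonneg _)
    (abs_nonneg _)]
  refine mul_le_of_le_one_right (by positivity) ?_
  exact Real.rpow_le_one_of_one_le_of_nonpos (by rw [abs_of_pos (by linarith)]; linarith)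
    (by linarith)

theorem Q_neg_le (hs : 0 < s) (hs1 : s ≤ 1) {A : ℝ} (hA : A < 0) (y : ℝ) :
    Q s (A + y) ≤ |A| ^ (s - 2) * y ^ 2 := by
  have hA' : 0 < |A| := abs_pos.mpr hA.ne
  rcases le_total (A + y) 0 with h | h
  · rw [Q_of_nonpos hs h]; positivity
  · have hy : |A| ≤ y := by rw [abs_of_neg hA]; linarith
    have hy0 : 0 < y := hA'.trans_le hy
    calc Q s (A + y) ≤ Q s y := Q_mono hs (by linarith)
      _ = y ^ (s - 2) * y ^ 2 := by
        rw [Q_of_nonneg hy0.le, ← Real.rpow_natCast, ← Real.rpow_add hy0]; norm_num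
      _ ≤ _ := by
        gcongr ?_ * _
        exact Real.rpow_le_rpow_of_nonpos hA' hy (by linarith)

omit [FiniteDimensional ℝ E] [MeasurableSpace E] [BorelSpace E] in
theorem abs_sd_w0_le_rpow (hs : 0 < s) (hs1 : s ≤ 1) {γ : ℝ} (h1 : s ≤ γ) (h2 : γ ≤ 2) {x h : E}
    (hx : ‖x‖ ≤ 2) (hx1 : ‖x‖ ≠ 1) (hh : ‖h‖ ≤ 1) :
    |sd (w0 s) x h| ≤ 502 * (|1 - ‖x‖ ^ 2| ^ (-(γ - s)) * ‖h‖ ^ γ) := by
  rcases eq_or_ne h 0 with rfl | h0
  · have : sd (w0 s) x 0 = 0 := by simp [sd]
    rw [this, abs_zero]; positivity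
  have hh0 : 0 < ‖h‖ := norm_pos_iff.mpr h0
  have hA : 1 - ‖x‖ ^ 2 ≠ 0 := fun e => hx1 (by nlinarith [norm_nonneg x])
  have hA' : 0 < |1 - ‖x‖ ^ 2| := abs_pos.mpr hA
  obtain ⟨i1, i2⟩ := incr_le hx hh
  rcases le_total ‖h‖ |1 - ‖x‖ ^ 2| with hc | hc
  · have hb : |sd (w0 s) x h| ≤ 502 * |1 - ‖x‖ ^ 2| ^ (s - 2) * ‖h‖ ^ 2 := by
      rcases lt_or_gt_of_ne hx1 with hlt | hgt
      · rw [abs_of_pos (show 0 < 1 - ‖x‖ ^ 2 by nlinarith [norm_nonneg x])]
        exact abs_sd_w0_le hs hs1 hlt hh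
      · have hneg : 1 - ‖x‖ ^ 2 < 0 := by nlinarith
        have q1 := sq_le_sq' (abs_le.mp i1).1 (abs_le.mp i1).2
        have q2 := sq_le_sq' (abs_le.mp i2).1 (abs_le.mp i2).2
        have t1 := Q_neg_le hs hs1 hneg (-(2 * inner ℝ x h) - ‖h‖ ^ 2)
        have t2 := Q_neg_le hs hs1 hneg (2 * inner ℝ x h - ‖h‖ ^ 2)
        have n1 := Q_nonneg s (1 - ‖x‖ ^ 2 + (-(2 * inner ℝ x h) - ‖h‖ ^ 2))
        have n2 := Q_nonneg s (1 - ‖x‖ ^ 2 + (2 * inner ℝ x h - ‖h‖ ^ 2))
        have hp2 := Real.rpow_pos_of_pos hA' (s - 2)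
        have u1 := mul_le_mul_of_nonneg_left q1 hp2.le
        have u2 := mul_le_mul_of_nonneg_left q2 hp2.le
        have u3 : 0 ≤ |1 - ‖x‖ ^ 2| ^ (s - 2) * ‖h‖ ^ 2 := by positivity
        rw [sd_w0, Q_of_nonpos hs hneg.le, abs_le]
        constructor <;> nlinarith
    refine hb.trans ?_
    rw [mul_assoc]
    gcongr 502 * ?_
    calc |1 - ‖x‖ ^ 2| ^ (s - 2) * ‖h‖ ^ 2
        = |1 - ‖x‖ ^ 2| ^ (s - 2) * (‖h‖ ^ (2 - γ) * ‖h‖ ^ γ) := by
          rw [← Real.rpow_add hh0, sub_add_cancel, Real.rpow_two]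
      _ ≤ |1 - ‖x‖ ^ 2| ^ (s - 2) * (|1 - ‖x‖ ^ 2| ^ (2 - γ) * ‖h‖ ^ γ) := by
          gcongr
      _ = _ := by
          rw [← mul_assoc, ← Real.rpow_add hA']; congr 2; ring
  · have h5 : (5 * ‖h‖) ^ s ≤ 5 * ‖h‖ ^ s := by
      rw [Real.mul_rpow (by norm_num) hh0.le]
      gcongr
      simpa using Real.rpow_le_rpow_of_exponent_le (show (1 : ℝ) ≤ 5 by norm_num) hs1
    have t1 := Q_holder hs hs1 (1 - ‖x‖ ^ 2) (1 - ‖x‖ ^ 2 + (-(2 * inner ℝ x h) - ‖h‖ ^ 2))
    have t2 := Q_holder hs hs1 (1 - ‖x‖ ^ 2) (1 - ‖x‖ ^ 2 + (2 * inner ℝ x h - ‖h‖ ^ 2))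
    rw [sub_add_cancel_left, abs_neg] at t1 t2
    have u1 := (t1.trans (Real.rpow_le_rpow (abs_nonneg _) i1 hs.le)).trans h5
    have u2 := (t2.trans (Real.rpow_le_rpow (abs_nonneg _) i2 hs.le)).trans h5
    have u3 : ‖h‖ ^ s ≤ |1 - ‖x‖ ^ 2| ^ (-(γ - s)) * ‖h‖ ^ γ := by
      calc ‖h‖ ^ s = ‖h‖ ^ (-(γ - s)) * ‖h‖ ^ γ := by
            rw [← Real.rpow_add hh0]; congr 1; ring
        _ ≤ _ := by
            gcongr ?_ * _
            exact Real.rpow_le_rpow_of_nonpos hA' hc (by linarith)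
    have u4 : 0 ≤ ‖h‖ ^ s := by positivity
    rw [sd_w0, abs_le]
    rw [abs_le] at u1 u2
    constructor <;> linarith [u1.1, u1.2, u2.1, u2.2]

theorem integrable_w0 (hs : 0 < s) : Integrable (w0 s : E → ℝ) :=
  (w0_cont hs).integrable_of_hasCompactSupport
    (HasCompactSupport.intro (isCompact_closedBall (0 : E) 1) fun x hx =>
      w0_eq_zero hs (by simpa using (not_le.mp (by simpa using hx)).le))

theorem int_sd_w0 (hp : Expo E p) (hps : p = Module.finrank ℝ E + 2 * s) (hs : 1 / 2 < s) :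
    Integrable (fun q : E × E => sd (w0 s) q.1 q.2 * ker p q.2) (volume.prod volume) := by
  have hs1 : s < 1 := by linarith [hp.hi]
  have hs0 : 0 < s := by linarith
  have : Nontrivial E := Module.nontrivial_of_finrank_pos (R := ℝ) (by linarith [hp.two])
  set γ := (1 + 3 * s) / 2 with hγ
  have hw := integrable_w0 (E := E) hs0
  have hk := integrable_wt hp one_pos
  have i1 : Integrable (fun q : E × E => sd (w0 s) q.1 q.2 * wt p 1 q.2) (volume.prod volume) := by
    refine ((((hw.mul_prod hk).add (hw.mul_prod hk)).sub (integrable_prod_add hw hk)).sub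
      (integrable_prod_sub hw hk)).congr (Eventually.of_forall fun q => ?_)
    simp only [sd, Pi.add_apply, Pi.sub_apply]; ring
  have j1 : Integrable ((ball (0 : E) 3).indicator fun x => |1 - ‖x‖ ^ 2| ^ (-(γ - s))) :=
    (integrableOn_abs_one_sub_sq (by linarith) (by linarith)).integrable_indicator
      measurableSet_ball
  have j2 : Integrable ((ball (0 : E) 2).indicator fun h => ‖h‖ ^ (-(p - γ))) := by
    refine IntegrableOn.integrable_indicator ?_ measurableSet_ball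
    exact integrableOn_ball_of_norm_le_rpow (C := 1) (α := p - γ) (by linarith [hp.two])
      (by linarith) (Eventually.of_forall fun h => by
        rw [Real.norm_of_nonneg (by positivity), one_mul])
      (Measurable.aestronglyMeasurable (by fun_prop))
  have hae : ∀ᵐ q : E × E ∂(volume.prod volume), ‖q.1‖ ≠ 1 := by
    refine Measure.quasiMeasurePreserving_fst.ae (p := fun x : E => ‖x‖ ≠ 1) ?_
    have := Measure.addHaar_sphere (volume : Measure E) 0 1
    rw [ae_iff]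
    simpa [sphere] using this
  have i2 : Integrable (fun q : E × E => sd (w0 s) q.1 q.2 * (ker p q.2 - wt p 1 q.2))
      (volume.prod volume) := by
    refine ((j1.mul_prod j2).const_mul 502).mono'
      ((measurable_sd (w0_cont hs0).measurable).mul (by fun_prop)).aestronglyMeasurable ?_
    filter_upwards [hae] with q hq
    have hnn : 0 ≤ 502 * ((ball (0 : E) 3).indicator (fun x => |1 - ‖x‖ ^ 2| ^ (-(γ - s))) q.1 *
        (ball (0 : E) 2).indicator (fun h => ‖h‖ ^ (-(p - γ))) q.2) :=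
      mul_nonneg (by norm_num) (mul_nonneg (indicator_nonneg (fun _ _ => by positivity) _)
        (indicator_nonneg (fun _ _ => by positivity) _))
    by_cases hh : 1 < ‖q.2‖
    · simpa [wt, hh] using hnn
    have hh' : ‖q.2‖ ≤ 1 := not_lt.mp hh
    by_cases hx : ‖q.1‖ ≤ 2
    · rcases eq_or_ne q.2 0 with h0 | h0
      · have : sd (w0 s) q.1 q.2 = 0 := by simp [sd, h0]
        simpa [this] using hnn
      have hh0 : 0 < ‖q.2‖ := norm_pos_iff.mpr h0
      rw [indicator_of_mem (mem_ball_zero_iff.mpr (by linarith)),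
        indicator_of_mem (mem_ball_zero_iff.mpr (by linarith)), wt, if_neg hh, sub_zero, norm_mul,
        Real.norm_of_nonneg (ker_nonneg _ _), Real.norm_eq_abs, neg_sub p, Real.rpow_sub hh0,
        div_eq_mul_inv, ← mul_assoc (_ ^ _), ← mul_assoc]
      exact mul_le_mul_of_nonneg_right (abs_sd_w0_le_rpow hs0 hs1.le (by linarith) (by linarith)
        hx hq hh') (ker_nonneg p q.2)
    · have hx' : 2 < ‖q.1‖ := not_le.mp hx
      have a1 := norm_sub_norm_le q.1 q.2
      have a2 := norm_sub_norm_le q.1 (-q.2)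
      rw [sub_neg_eq_add, norm_neg] at a2
      have : sd (w0 s) q.1 q.2 = 0 := by
        rw [sd, w0_eq_zero hs0 (by linarith), w0_eq_zero hs0 (by linarith), w0_eq_zero hs0 (by linarith)]
        ring
      simpa [this] using hnn
  refine (i1.add i2).congr (Eventually.of_forall fun q => ?_)
  simp only [Pi.add_apply]; ring

end Pool.Agent.P.MP_c7f95f_an
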