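import Pool.Agent.P.MP_c7f95f_an.T.ConstMu
import Pool.Agent.P.MP_c7f95f_an.T.EstSd

/-!
The example with a positive datum on the unit ball.
-/

namespace Pool.Agent.P.MP_c7f95f_an

open MeasureTheory Set Filter Topology Metric

variable {N : ℕ} [NeZero N]

omit [NeZero N] in
theorem good_w0 (hN : 2 ≤ N) {s : ℝ} (hs : s ∈ Ioo (1 / 2 : ℝ) 1) :
    Good ((N : ℝ) + 2 * s) (w0 s : Sp N → ℝ) := by
  have hp := expo_of hN hs
  have hps : (N : ℝ) + 2 * s = Module.finrank ℝ (Sp N) + 2 * s := by simp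
  have hs0 : 0 < s := by linarith [hs.1]
  exact ⟨continuous_w0 hs0.le, fun x hx => w0_zero hs0 hx, int_sd_w0 hp hps hs.1, int_sq_w0 hp hps⟩

theorem natural (hN : 2 ≤ N) {s : ℝ} (hs : s ∈ Ioo (1 / 2 : ℝ) 1) {lam : ℝ} (hlam : lam ≠ 0)
    {c : Sp N → ℝ} (hc : MemLp c ⊤ (volume.restrict (ball 0 1)))
    (hc0 : ∀ᵐ x ∂(volume.restrict (ball (0 : Sp N) 1)), c x ≤ 0) (μ₁ : ℝ) {θ : ℝ} (hθ : 0 ≤ θ) :
    ∃ μ g u : Sp N → ℝ, MemLp μ ⊤ (volume.restrict (ball 0 1)) ∧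
      (∀ᵐ x ∂(volume.restrict (ball (0 : Sp N) 1)), μ₁ ≤ μ x) ∧
      (∀ m : ENNReal, m ≠ ⊤ → MemLp g m (volume.restrict (ball 0 1))) ∧
      (∀ᵐ x ∂(volume.restrict (ball (0 : Sp N) 1)), 0 < lam * g x) ∧
      (∀ x ∈ ball (0 : Sp N) 1, 0 < u x) ∧
      IsRegularSol s (ball 0 1) μ c (fun x => θ * g x) lam u ∧
      IsRegularSol s (ball 0 1) μ c (fun x => θ * g x) lam (fun x => θ * u x) := by
  obtain ⟨k, hk, hget⟩ := getoor (expo_of hN hs) (by simp) hs.1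
  exact natural_of hN hs hk hget (good_w0 hN hs) hlam hc hc0 μ₁ hθ

end Pool.Agent.P.MP_c7f95f_an
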