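import Pool.Agent.P.MP_c7f95f_an.T.Final1
import Pool.Agent.P.MP_c7f95f_an.CMFinal

/-!
The example with a constant coefficient on the unit ball.
-/

namespace Pool.Agent.P.MP_c7f95f_an

open MeasureTheory Set Filter Topology Metric

variable {N : ℕ} [NeZero N]

theorem constant_mu (hN : 2 ≤ N) {s : ℝ} (hs : s ∈ Ioo (1 / 2 : ℝ) 1) {lam : ℝ} (hlam : lam ≠ 0)
    {μ : ℝ} (hμ : μ ≠ 0) :
    ∃ c f u v : Sp N → ℝ, MemLp c ⊤ (volume.restrict (ball 0 1)) ∧ (∀ x, c x ≤ 0) ∧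
      (∀ m : ENNReal, m ≠ ⊤ → MemLp f m (volume.restrict (ball 0 1))) ∧
      IsRegularSol s (ball 0 1) (fun _ => μ) c f lam u ∧
      IsRegularSol s (ball 0 1) (fun _ => μ) c f lam v ∧ ∀ x ∈ ball (0 : Sp N) 1, v x < u x := by
  obtain ⟨k, hk, hget⟩ := getoor (expo_of hN hs) (by simp) hs.1
  obtain ⟨P, H, c, e, hP, hPs, hH, hHs, he, hH0, hcm, ⟨C, hC⟩, hid⟩ :=
    sign_analysis (k := k / 2) (expo_of hN hs) (by simp) hs.1 (by positivity)
  exact const_of hN hs hget (good_w0 hN hs) hlam hμ hP hPs hH hHs he hH0 hcm hC hid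

end Pool.Agent.P.MP_c7f95f_an
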