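import Pool.Agent.P.MP_c7f95f_an.T.Base

/-!
Integration by parts for functions on the unit ball with an integrable second difference.
-/

namespace Pool.Agent.P.MP_c7f95f_an

open MeasureTheory Set Filter Topology Metric

variable {E : Type*} [NormedAddCommGroup E] [InnerProductSpace ℝ E] [FiniteDimensional ℝ E]
  [MeasurableSpace E] [BorelSpace E]

/-- Continuous compactly supported functions with an integrable second difference. -/
structure Nice2 (p : ℝ) (ψ : E → ℝ) : Prop where
  cont : Continuous ψ
  supp : HasCompactSupport ψ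
  int : Integrable (fun q : E × E => sd ψ q.1 q.2 * ker p q.2) (volume.prod volume)

theorem Nice2.integrable {p : ℝ} {ψ : E → ℝ} (hψ : Nice2 p ψ) : Integrable ψ :=
  hψ.cont.integrable_of_hasCompactSupport hψ.supp

theorem integrable_prod_wt {p : ℝ} {ψ : E → ℝ} (hm : Measurable ψ)
    (hi : Integrable (fun q : E × E => sd ψ q.1 q.2 * ker p q.2) (volume.prod volume)) (t : ℝ) :
    Integrable (fun q : E × E => sd ψ q.1 q.2 * wt p t q.2) (volume.prod volume) := by
  refine hi.mono ((measurable_sd hm).mul (by fun_prop)).aestronglyMeasurable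
    (Eventually.of_forall fun q => ?_)
  simp only [norm_mul, Real.norm_eq_abs, abs_of_nonneg (wt_nonneg _ _ _),
    abs_of_nonneg (ker_nonneg _ _)]
  exact mul_le_mul_of_nonneg_left (wt_le_ker _ _ _) (abs_nonneg _)

theorem integral_mul_S2 {p t : ℝ} (hp : Expo E p) (ht : 0 < t) {f ψ : E → ℝ} (hf : Measurable f)
    {B : ℝ} (hB : ∀ x, |f x| ≤ B) (hψ : Nice2 p ψ) :
    ∫ x, ψ x * S p t f x = ∫ x, f x * S p t ψ x := by
  have h1 := integrable_prod_mul_sd hf hB hψ.integrable (integrable_wt hp ht)
  have h2 := integrable_bdd_mul_prod hf hB (integrable_prod_wt hψ.cont.measurable hψ.int t)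
  simp only [S, ← integral_const_mul]
  rw [integral_integral_swap (f := fun x h => ψ x * (sd f x h * wt p t h)) h1,
    integral_integral_swap (f := fun x h => f x * (sd ψ x h * wt p t h)) h2]
  congr 1; ext h
  simp only [← mul_assoc, integral_mul_const]
  rw [integral_mul_sd hf hB hψ.integrable]

theorem tendsto_integral_mul_S2 {p : ℝ} (hp : Expo E p) {f ψ : E → ℝ} (hf : Measurable f)
    {B : ℝ} (hB : ∀ x, |f x| ≤ B) (hψ : Nice2 p ψ) :
    Tendsto (fun t => ∫ x, f x * S p t ψ x) (𝓝[>] 0) (𝓝 (∫ x, f x * S p 0 ψ x)) := by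
  have hp0 : p ≠ 0 := by linarith [hp.two_lt]
  have h2 := fun t =>
    integrable_bdd_mul_prod hf hB (integrable_prod_wt hψ.cont.measurable hψ.int t)
  have e : ∀ t, ∫ x, f x * S p t ψ x =
      ∫ q : E × E, f q.1 * (sd ψ q.1 q.2 * wt p t q.2) ∂(volume.prod volume) := fun t => by
    rw [integral_prod _ (h2 t)]
    simp only [S, ← integral_const_mul]
  simp only [e]
  refine tendsto_integral_filter_of_dominated_convergence _
    (Eventually.of_forall fun t => (h2 t).aestronglyMeasurable)
    (Eventually.of_forall fun t => Eventually.of_forall fun q => ?_) (h2 0).norm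
    (Eventually.of_forall fun q => ((tendsto_wt hp0 q.2).const_mul _).const_mul _)
  simp only [norm_mul, Real.norm_eq_abs, abs_of_nonneg (wt_nonneg _ _ _)]
  gcongr
  rw [wt_zero hp0]; exact wt_le_ker _ _ _

theorem integral_by_parts2 {p : ℝ} (hp : Expo E p) {φ u G : E → ℝ} (hφ : Continuous φ) {B : ℝ}
    (hB : ∀ x, |φ x| ≤ B) {Ω : Set E} (hΩ : IsOpen Ω) {C : ℝ}
    (hG : ∀ x ∈ Ω, |G x| ≤ C ∧ Tendsto (fun t => S p t φ x) (𝓝[>] 0) (𝓝 (G x)))
    (hu : Nice2 p u) (huΩ : tsupport u ⊆ Ω) :
    ∫ x, u x * G x = ∫ x, φ x * S p 0 u x := by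
  have hB0 : 0 ≤ B := (abs_nonneg _).trans (hB 0)
  have hβi := (nice_bump (E := E)).integrable_S hp 0
  have hui := hu.integrable
  set F : E → ℝ := fun v => ∫ x, u x * φ (x + v) with hF
  have hFm : Measurable F :=
    (StronglyMeasurable.integral_prod_left' (μ := (volume : Measure E))
      (f := fun q : E × E => u q.1 * φ (q.1 + q.2))
      (Continuous.stronglyMeasurable (by have := hu.cont; fun_prop))).measurable
  have hFB : ∀ v, |F v| ≤ ∫ x, ‖u x‖ * B := fun v => by
    rw [← Real.norm_eq_abs]
    refine norm_integral_le_of_norm_le (hui.norm.mul_const B) (Eventually.of_forall fun x => ?_)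
    rw [norm_mul]
    exact mul_le_mul_of_nonneg_left (hB _) (norm_nonneg _)
  have i0 : ∀ k : E, Integrable (fun x => u x * φ (x + k)) := fun k =>
    hui.mul_bdd (c := B) (Continuous.aestronglyMeasurable (by fun_prop))
      (Eventually.of_forall fun x => hB _)
  have hSF : ∀ t, 0 < t → S p t F 0 = ∫ x, φ x * S p t u x := fun t ht => by
    rw [← integral_mul_S2 hp ht hφ.measurable hB hu]
    have h1 := integrable_prod_mul_sd hφ.measurable hB hui (integrable_wt hp ht)
    simp only [S, ← integral_const_mul]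
    rw [integral_integral_swap (f := fun x h => u x * (sd φ x h * wt p t h)) h1]
    congr 1; ext h
    simp only [← mul_assoc, integral_mul_const]
    congr 1
    simp only [sd, hF, zero_add, zero_sub]
    rw [← integral_four (i0 0) (i0 0) (i0 h) (i0 (-h))]
    congr 1; ext x
    simp only [add_zero, sub_eq_add_neg]; ring
  have hlimF : Tendsto (fun t => S p t F 0) (𝓝[>] 0) (𝓝 (∫ x, φ x * S p 0 u x)) := by
    refine (tendsto_integral_mul_S2 hp hφ.measurable hB hu).congr' ?_
    filter_upwards [self_mem_nhdsWithin] with t ht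
    exact (hSF t ht).symm
  have h1 := tendsto_A hp hFm hFB hlimF
  have hAF : ∀ ε, A p ε F 0 = ∫ x, u x * A p ε φ x := fun ε => by
    have hpi : Integrable (fun q : E × E => u q.1 * (φ (q.1 + ε • q.2) * S p 0 bump q.2))
        (volume.prod volume) := by
      have := (hui.mul_prod hβi).mul_bdd (c := B) (g := fun q : E × E => φ (q.1 + ε • q.2))
        (Continuous.aestronglyMeasurable (by fun_prop)) (Eventually.of_forall fun q => hB _)
      refine this.congr (Eventually.of_forall fun q => ?_)
      simp only; ring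
    simp only [A, mul_left_comm (u _), integral_const_mul]
    congr 1
    simp only [← integral_const_mul]
    rw [integral_integral_swap (f := fun x w => u x * (φ (x + ε • w) * S p 0 bump w)) hpi]
    congr 1; ext w
    simp only [← mul_assoc, integral_mul_const, hF, zero_add]
  obtain ⟨δ, hδ, hδΩ⟩ := hu.supp.isCompact.exists_cthickening_subset_open hΩ huΩ
  have hAm : ∀ ε, Measurable (A p ε φ) := fun ε =>
    measurable_const.mul (StronglyMeasurable.integral_prod_right' (ν := (volume : Measure E))
      (f := fun q : E × E => φ (q.1 + ε • q.2) * S p 0 bump q.2)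
      ((Continuous.measurable (by fun_prop)).mul
        ((measurable_S p 0 nice_bump.cont.measurable).comp measurable_snd)).stronglyMeasurable).measurable
  have h2 : Tendsto (fun ε => ∫ x, u x * A p ε φ x) (𝓝[>] 0)
      (𝓝 (∫ x, u x * ((∫ w : E, bump w) * G x))) := by
    refine tendsto_integral_filter_of_dominated_convergence
      (fun x => ‖u x‖ * (C * ∫ w : E, bump w))
      (Eventually.of_forall fun ε => (hu.cont.measurable.mul (hAm ε)).aestronglyMeasurable) ?_
      (hui.norm.mul_const _) (Eventually.of_forall fun x => ?_)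
    · filter_upwards [self_mem_nhdsWithin, nhdsWithin_le_nhds (ge_mem_nhds hδ)] with ε hε hεδ
      refine Eventually.of_forall fun x => ?_
      by_cases hx : x ∈ tsupport u
      · rw [norm_mul]
        refine mul_le_mul_of_nonneg_left (abs_A_le hp hφ hB hΩ
          (fun z hz => ⟨G z, hG z hz⟩) hε fun z hz => hδΩ ?_) (norm_nonneg _)
        exact mem_cthickening_of_dist_le _ x _ _ hx ((mem_closedBall.mp hz).trans hεδ)
      · simp [image_eq_zero_of_notMem_tsupport hx]
    · by_cases hx : x ∈ tsupport u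
      · exact (tendsto_A hp hφ.measurable hB (hG x (huΩ hx)).2).const_mul _
      · simp [image_eq_zero_of_notMem_tsupport hx]
  simp only [hAF] at h1
  have h3 := tendsto_nhds_unique h2 h1
  simp only [mul_left_comm (u _), integral_const_mul] at h3
  exact mul_left_cancel₀ integral_bump_pos.ne' h3

omit [FiniteDimensional ℝ E] [MeasurableSpace E] [BorelSpace E] in
theorem ker_dilate (p : ℝ) {r : ℝ} (hr : 0 < r) (h : E) : ker p h = r ^ p * ker p (r • h) := by
  rw [ker, ker, norm_smul, Real.norm_of_nonneg hr.le, Real.mul_rpow hr.le (norm_nonneg _), mul_inv,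
    ← mul_assoc, mul_inv_cancel₀ (Real.rpow_pos_of_pos hr p).ne', one_mul]

omit [FiniteDimensional ℝ E] [MeasurableSpace E] [BorelSpace E] in
theorem sd_dilate (u : E → ℝ) (r : ℝ) (x h : E) :
    sd (fun z => u (r • z)) x h = sd u (r • x) (r • h) := by
  simp [sd, smul_add, smul_sub]

theorem S_dilate {p : ℝ} (hp0 : p ≠ 0) (u : E → ℝ) {r : ℝ} (hr : 0 < r) (x : E) :
    S p 0 (fun z => u (r • z)) x = r ^ p * (r ^ Module.finrank ℝ E)⁻¹ * S p 0 u (r • x) := by
  have h := Measure.integral_comp_smul volume (fun h : E => sd u (r • x) h * ker p h) r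
  rw [abs_of_pos (by positivity), smul_eq_mul] at h
  simp only [S, wt_zero hp0, sd_dilate]
  rw [mul_assoc, ← h, ← integral_const_mul]
  congr 1; ext h
  rw [ker_dilate p hr h]; ring

theorem Good.compact {p : ℝ} {u : E → ℝ} (hu : Good p u) : HasCompactSupport u :=
  HasCompactSupport.intro (isCompact_closedBall (0 : E) 1) fun x hx =>
    hu.zero x (le_of_lt (by simpa using hx))

theorem Good.nice2_dilate {p : ℝ} {u : E → ℝ} (hu : Good p u) {r : ℝ} (hr : 1 < r) :
    Nice2 p (fun z => u (r • z)) ∧ tsupport (fun z => u (r • z)) ⊆ ball 0 1 := by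
  have hr0 : 0 < r := by linarith
  have hz : ∀ x : E, x ∉ closedBall (0 : E) r⁻¹ → u (r • x) = 0 := fun x hx => by
    refine hu.zero _ ?_
    have h1 : r⁻¹ < ‖x‖ := by simpa using hx
    rw [norm_smul, Real.norm_of_nonneg hr0.le]
    have := mul_lt_mul_of_pos_left h1 hr0
    rw [mul_inv_cancel₀ hr0.ne'] at this
    exact this.le
  refine ⟨⟨by have := hu.cont; fun_prop,
    HasCompactSupport.intro (isCompact_closedBall (0 : E) r⁻¹) hz, ?_⟩, ?_⟩
  · have h := (hu.int_sd.comp_smul hr0.ne').const_mul (r ^ p)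
    refine h.congr (Eventually.of_forall fun q => ?_)
    simp only [sd_dilate, Prod.smul_fst, Prod.smul_snd]
    rw [ker_dilate p hr0 q.2]; ring
  · refine (closure_minimal (fun x hx => ?_) isClosed_closedBall).trans
      (closedBall_subset_ball (inv_lt_one_of_one_lt₀ hr))
    by_contra h
    exact hx (hz x h)

theorem Good.integrable_S {p : ℝ} {u : E → ℝ} (hu : Good p u) (t : ℝ) : Integrable (S p t u) :=
  (integrable_prod_wt hu.cont.measurable hu.int_sd t).integral_prod_left

/-- Integration by parts on the unit ball. -/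
theorem Good.by_parts {p : ℝ} (hp : Expo E p) {φ u G : E → ℝ} (hφ : Continuous φ) {B : ℝ}
    (hB : ∀ x, |φ x| ≤ B) {C : ℝ}
    (hG : ∀ x ∈ ball (0 : E) 1, |G x| ≤ C ∧ Tendsto (fun t => S p t φ x) (𝓝[>] 0) (𝓝 (G x)))
    (hu : Good p u) : ∫ x in ball 0 1, u x * G x = ∫ x, φ x * S p 0 u x := by
  have hp0 : p ≠ 0 := by linarith [hp.two_lt]
  obtain ⟨M, hM⟩ := hu.compact.exists_bound_of_continuous hu.cont
  have hGm : AEStronglyMeasurable G (volume.restrict (ball (0 : E) 1)) := by
    refine aestronglyMeasurable_of_tendsto_ae (𝓝[>] (0 : ℝ)) (f := fun t => S p t φ)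
      (fun t => (measurable_S p t hφ.measurable).aestronglyMeasurable) ?_
    rw [ae_restrict_iff' measurableSet_ball]
    exact Eventually.of_forall fun x hx => (hG x hx).2
  set n := Module.finrank ℝ E
  have key : ∀ r : ℝ, 1 < r → ∫ x in ball 0 1, u (r • x) * G x =
      r ^ p * (r ^ n)⁻¹ * (r ^ n)⁻¹ * ∫ y, φ (r⁻¹ • y) * S p 0 u y := fun r hr => by
    have hr0 : 0 < r := by linarith
    obtain ⟨h1, h2⟩ := hu.nice2_dilate hr
    have h3 := integral_by_parts2 hp hφ hB isOpen_ball hG h1 h2
    rw [setIntegral_eq_integral_of_forall_compl_eq_zero fun x hx => by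
      rw [image_eq_zero_of_notMem_tsupport (f := fun z => u (r • z)) fun h => hx (h2 h), zero_mul],
      h3]
    have h4 := Measure.integral_comp_smul volume (fun y : E => φ (r⁻¹ • y) * S p 0 u y) r
    rw [abs_of_pos (by positivity), smul_eq_mul] at h4
    rw [mul_assoc, ← h4, ← integral_const_mul]
    congr 1; ext x
    rw [S_dilate hp0 u hr0, inv_smul_smul₀ hr0.ne']; ring
  have l1 : Tendsto (fun r : ℝ => ∫ x in ball 0 1, u (r • x) * G x) (𝓝[>] 1)
      (𝓝 (∫ x in ball 0 1, u x * G x)) := by
    refine tendsto_integral_filter_of_dominated_convergence (fun _ => M * C)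
      (Eventually.of_forall fun r =>
        (Continuous.aestronglyMeasurable (by have := hu.cont; fun_prop)).mul hGm)
      (Eventually.of_forall fun r => ?_) (integrableOn_const measure_ball_lt_top.ne)
      (Eventually.of_forall fun x => ?_)
    · rw [ae_restrict_iff' measurableSet_ball]
      refine Eventually.of_forall fun x hx => ?_
      rw [norm_mul]
      exact mul_le_mul (hM _) (hG x hx).1 (norm_nonneg _) ((norm_nonneg _).trans (hM 0))
    · refine Tendsto.mul_const _ (tendsto_nhdsWithin_of_tendsto_nhds ?_)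
      have hc : Continuous fun r : ℝ => u (r • x) := by have := hu.cont; fun_prop
      simpa using hc.tendsto 1
  have l2 : Tendsto (fun r : ℝ => ∫ y, φ (r⁻¹ • y) * S p 0 u y) (𝓝[>] 1)
      (𝓝 (∫ y, φ y * S p 0 u y)) := by
    refine tendsto_integral_filter_of_dominated_convergence (fun y => B * ‖S p 0 u y‖)
      (Eventually.of_forall fun r => (Continuous.aestronglyMeasurable (by fun_prop)).mul
        (hu.integrable_S 0).aestronglyMeasurable)
      (Eventually.of_forall fun r => Eventually.of_forall fun y => ?_)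
      ((hu.integrable_S 0).norm.const_mul B) (Eventually.of_forall fun y => ?_)
    · rw [norm_mul]
      exact mul_le_mul_of_nonneg_right (hB _) (norm_nonneg _)
    · refine Tendsto.mul_const _ (tendsto_nhdsWithin_of_tendsto_nhds ?_)
      have hc : ContinuousAt (fun r : ℝ => φ (r⁻¹ • y)) 1 :=
        hφ.continuousAt.comp ((continuousAt_inv₀ one_ne_zero).smul continuousAt_const)
      simpa using hc.tendsto
  have l3 : Tendsto (fun r : ℝ => r ^ p * (r ^ n)⁻¹ * (r ^ n)⁻¹) (𝓝[>] 1) (𝓝 1) := by
    refine tendsto_nhdsWithin_of_tendsto_nhds ?_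
    have hc : ContinuousAt (fun r : ℝ => r ^ p * (r ^ n)⁻¹ * (r ^ n)⁻¹) 1 :=
      ((Real.continuousAt_rpow_const 1 p (Or.inl one_ne_zero)).mul
        ((continuousAt_pow 1 n).inv₀ (by simp))).mul ((continuousAt_pow 1 n).inv₀ (by simp))
    simpa using hc.tendsto
  have l4 := l3.mul l2
  rw [one_mul] at l4
  refine tendsto_nhds_unique l1 (l4.congr' ?_)
  filter_upwards [self_mem_nhdsWithin] with r hr
  exact (key r hr).symm

end Pool.Agent.P.MP_c7f95f_an
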