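import Pool.Agent.P.MP_c7f95f_an.T.Assemble

/-!
Two positive solutions with a positive datum, a coefficient bounded below and any `c ≤ 0`.
-/

namespace Pool.Agent.P.MP_c7f95f_an

open MeasureTheory Set Filter Topology Metric

section general

variable {E : Type*} [NormedAddCommGroup E] [InnerProductSpace ℝ E] [FiniteDimensional ℝ E]
  [MeasurableSpace E] [BorelSpace E]

theorem le_Gq {p η : ℝ} (hp : 0 ≤ p) (hη : 0 < η) {u : E → ℝ} {x y : E} (hx : ‖x‖ < 1)
    (hy : ‖y‖ ≤ 2) (hi : Integrable (fun h => (u x - u (x + h)) ^ 2 * ker p h))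
    (hz : ∀ z ∈ ball y (1 / 2), η ≤ |u x - u z|) :
    η ^ 2 * (4 ^ p)⁻¹ * volume.real (ball (0 : E) (1 / 2)) ≤ Gq p u x := by
  have e : volume.real (ball (0 : E) (1 / 2)) = volume.real (ball (y - x) (1 / 2)) := by
    simp only [Measure.real, Measure.addHaar_ball_center volume (y - x)]
  have h1 : ∫ h, (ball (y - x) (1 / 2)).indicator (fun _ => η ^ 2 * (4 ^ p)⁻¹) h =
      η ^ 2 * (4 ^ p)⁻¹ * volume.real (ball (0 : E) (1 / 2)) := by
    rw [integral_indicator measurableSet_ball, setIntegral_const, smul_eq_mul, e, mul_comm]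
  rw [← h1]
  refine integral_mono ((integrableOn_const measure_ball_lt_top.ne).integrable_indicator
    measurableSet_ball) hi fun h => ?_
  by_cases hh : h ∈ ball (y - x) (1 / 2)
  · rw [indicator_of_mem hh]
    have h2 : ‖h - (y - x)‖ < 1 / 2 := by simpa only [mem_ball, dist_eq_norm] using hh
    have h3 := hz (x + h) (by
      rw [mem_ball, dist_eq_norm, show x + h - y = h - (y - x) by abel]; exact h2)
    have h0 : h ≠ 0 := fun e0 => by
      rw [e0, add_zero, sub_self, abs_zero] at h3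
      linarith
    have h4 : ‖h‖ ≤ 4 := by
      have := norm_add_le (h - (y - x)) (y - x)
      rw [sub_add_cancel] at this
      linarith [norm_sub_le y x]
    refine mul_le_mul ?_ ?_ (by positivity) (sq_nonneg _)
    · rw [← sq_abs (u x - u (x + h))]
      exact pow_le_pow_left₀ hη.le h3 2
    · exact inv_anti₀ (Real.rpow_pos_of_pos (norm_pos_iff.mpr h0) p)
        (Real.rpow_le_rpow (norm_nonneg _) h4 hp)
  · rw [indicator_of_notMem hh]
    exact mul_nonneg (sq_nonneg _) (ker_nonneg _ _)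

theorem exists_le_Gq_w0 {p s : ℝ} (hp : Expo E p) (hps : p = Module.finrank ℝ E + 2 * s) :
    ∃ δ : ℝ, 0 < δ ∧ ∀ x : E, ‖x‖ < 1 → δ ≤ Gq p (w0 s) x := by
  have hs0 : 0 < s := by linarith [hp.lo]
  have hp0 : 0 ≤ p := by linarith [hp.two_lt]
  have : Nontrivial E := Module.nontrivial_of_finrank_pos (R := ℝ) (by linarith [hp.two])
  set η : ℝ := (3 / 4 : ℝ) ^ s / 2 with hη
  have hη0 : 0 < η := by positivity
  have hv : 0 < volume.real (ball (0 : E) (1 / 2)) :=
    ENNReal.toReal_pos (measure_ball_pos volume _ (by norm_num)).ne' measure_ball_lt_top.ne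
  refine ⟨η ^ 2 * (4 ^ p)⁻¹ * volume.real (ball (0 : E) (1 / 2)), by positivity, fun x hx => ?_⟩
  have hi := integrable_w0_sq hp hps hx
  rcases le_total η (w0 s x) with h | h
  · obtain ⟨y, hy⟩ := exists_norm_eq E (c := 2) (by norm_num)
    refine le_Gq hp0 hη0 hx hy.le hi fun z hz => ?_
    have h1 : ‖z - y‖ < 1 / 2 := by simpa only [mem_ball, dist_eq_norm] using hz
    have h2 : 1 ≤ ‖z‖ := by
      have := norm_sub_le z (z - y)
      rw [sub_sub_cancel] at this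
      linarith
    rw [w0_zero hs0 h2, sub_zero]
    exact h.trans (le_abs_self _)
  · refine le_Gq (y := 0) hp0 hη0 hx (by simp) hi fun z hz => ?_
    have h1 : ‖z‖ < 1 / 2 := by simpa only [mem_ball, dist_zero_right] using hz
    have h2 : (3 / 4 : ℝ) ^ s ≤ w0 s z :=
      Real.rpow_le_rpow (by norm_num) (le_max_of_le_left (by nlinarith [norm_nonneg z])) hs0.le
    rw [abs_sub_comm]
    refine le_trans ?_ (le_abs_self _)
    linarith

/-- The function `3 w0 - w0²`. -/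
noncomputable def U0 (s : ℝ) (x : E) : ℝ := 3 * w0 s x + -1 * w0 s x ^ 2

omit [InnerProductSpace ℝ E] [FiniteDimensional ℝ E] [MeasurableSpace E] [BorelSpace E] in
theorem U0_sub (s : ℝ) (x y : E) :
    U0 s x - U0 s y = (3 - w0 s x - w0 s y) * (w0 s x - w0 s y) := by
  unfold U0; ring

omit [InnerProductSpace ℝ E] [FiniteDimensional ℝ E] [MeasurableSpace E] [BorelSpace E] in
theorem U0_sq_bounds {s : ℝ} (hs : 0 ≤ s) (x y : E) :
    (w0 s x - w0 s y) ^ 2 ≤ (U0 s x - U0 s y) ^ 2 ∧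
      (U0 s x - U0 s y) ^ 2 ≤ 9 * (w0 s x - w0 s y) ^ 2 := by
  have h1 := w0_nonneg s x
  have h2 := w0_nonneg s y
  have h3 := w0_le_one hs x
  have h4 := w0_le_one hs y
  rw [U0_sub, mul_pow]
  have h5 : 1 ≤ (3 - w0 s x - w0 s y) ^ 2 := by nlinarith
  have h6 : (3 - w0 s x - w0 s y) ^ 2 ≤ 9 := by nlinarith
  constructor <;> nlinarith [sq_nonneg (w0 s x - w0 s y)]

omit [InnerProductSpace ℝ E] [FiniteDimensional ℝ E] [MeasurableSpace E] [BorelSpace E] in
theorem U0_holder {s : ℝ} (hs0 : 0 ≤ s) (hs1 : s ≤ 1) (x y : E) :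
    |U0 s x - U0 s y| ≤ 6 * ‖x - y‖ ^ s := by
  have h1 := w0_nonneg s x
  have h2 := w0_nonneg s y
  have h3 := w0_le_one hs0 x
  have h4 := w0_le_one hs0 y
  have h5 := w0_holder hs0 hs1 x y
  rw [U0_sub, abs_mul, abs_of_nonneg (by linarith)]
  nlinarith [abs_nonneg (w0 s x - w0 s y)]

omit [InnerProductSpace ℝ E] [FiniteDimensional ℝ E] [MeasurableSpace E] [BorelSpace E] in
theorem U0_bounds {s : ℝ} (hs0 : 0 ≤ s) (x : E) : w0 s x ≤ U0 s x ∧ U0 s x ≤ 3 := by
  have h1 := w0_nonneg s x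
  have h3 := w0_le_one hs0 x
  unfold U0
  constructor <;> nlinarith

theorem Gq_U0_bounds {p s : ℝ} (hp : Expo E p) (hps : p = Module.finrank ℝ E + 2 * s) {x : E}
    (hx : ‖x‖ < 1) : Gq p (w0 s) x ≤ Gq p (U0 s) x ∧ Gq p (U0 s) x ≤ 9 * Gq p (w0 s) x := by
  have hs0 : 0 < s := by linarith [hp.lo]
  have hi := integrable_w0_sq hp hps hx
  have hc : Continuous (U0 s : E → ℝ) := by
    have := continuous_w0 (E := E) hs0.le
    unfold U0; fun_prop
  have hb : ∀ h, (U0 s x - U0 s (x + h)) ^ 2 * ker p h ≤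
      9 * ((w0 s x - w0 s (x + h)) ^ 2 * ker p h) := fun h => by
    rw [← mul_assoc]
    exact mul_le_mul_of_nonneg_right (U0_sq_bounds hs0.le _ _).2 (ker_nonneg _ _)
  have hi' : Integrable (fun h => (U0 s x - U0 s (x + h)) ^ 2 * ker p h) := by
    refine (hi.const_mul 9).mono' ((measurable_sq_ker hc.measurable p).comp
      (measurable_const.prodMk measurable_id)).aestronglyMeasurable
      (Eventually.of_forall fun h => ?_)
    rw [Real.norm_of_nonneg (mul_nonneg (sq_nonneg _) (ker_nonneg _ _))]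
    exact hb h
  refine ⟨integral_mono hi hi' fun h =>
    mul_le_mul_of_nonneg_right (U0_sq_bounds hs0.le _ _).1 (ker_nonneg _ _), ?_⟩
  rw [Gq, Gq, ← integral_const_mul]
  exact integral_mono hi' (hi.const_mul 9) hb

theorem S_U0 {p s k : ℝ} (hp : Expo E p) (hps : p = Module.finrank ℝ E + 2 * s) {x : E}
    (hx : ‖x‖ < 1) (hi : Integrable (fun h => sd (w0 s) x h * ker p h))
    (hk : S p 0 (w0 s) x = k) :
    S p 0 (U0 s) x = (3 - 2 * w0 s x) * k + 2 * Gq p (w0 s) x := by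
  have hp0 : p ≠ 0 := by linarith [hp.two_lt]
  have h1 := integrable_w0_sq hp hps hx
  have h2 : Integrable (fun h => (w0 s x - w0 s (x + -h)) ^ 2 * ker p (-h)) := h1.comp_neg
  have h3 : ∫ h, (w0 s x - w0 s (x + -h)) ^ 2 * ker p (-h) = Gq p (w0 s) x :=
    integral_neg_eq_self (fun h => (w0 s x - w0 s (x + h)) ^ 2 * ker p h) volume
  have h4 := hi.const_mul (3 - 2 * w0 s x)
  rw [S_zero_eq hp0] at hk
  rw [S_zero_eq hp0, ← hk, two_mul (Gq p (w0 s) x), ← add_assoc, ← integral_const_mul]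
  nth_rewrite 2 [← h3]
  have h5 : Integrable (fun h => (3 - 2 * w0 s x) * (sd (w0 s) x h * ker p h)
      + (w0 s x - w0 s (x + h)) ^ 2 * ker p h) := h4.add h1
  rw [Gq, ← integral_add h4 h1, ← integral_add h5 h2]
  congr 1; ext h
  simp only [sd, U0, ker_neg, ← sub_eq_add_neg]; ring

theorem S_const_mul (p t r : ℝ) (u : E → ℝ) (x : E) :
    S p t (fun z => r * u z) x = r * S p t u x := by
  rw [S, S, ← integral_const_mul]
  congr 1; ext h
  simp only [sd]; ring

theorem Gq_const_mul (p r : ℝ) (u : E → ℝ) (x : E) :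
    Gq p (fun z => r * u z) x = r ^ 2 * Gq p u x := by
  rw [Gq, Gq, ← integral_const_mul]
  congr 1; ext h
  ring

omit [InnerProductSpace ℝ E] [FiniteDimensional ℝ E] [BorelSpace E] [NormedAddCommGroup E] in
theorem exists_ae_bound {ν : Measure E} {c : E → ℝ} (hc : MemLp c ⊤ ν) :
    ∃ C : ℝ, 0 ≤ C ∧ ∀ᵐ x ∂ν, |c x| ≤ C := by
  refine ⟨(eLpNormEssSup c ν).toReal, ENNReal.toReal_nonneg,
    (ae_le_eLpNormEssSup (f := c) (μ := ν)).mono fun x hx => ?_⟩
  have h := ENNReal.toReal_mono (by simpa using hc.2.ne) hx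
  simpa using h

end general

variable {N : ℕ} [NeZero N]

theorem natural_of (hN : 2 ≤ N) {s : ℝ} (hs : s ∈ Ioo (1 / 2 : ℝ) 1) {k : ℝ} (hk : 0 < k)
    (hget : ∀ x ∈ ball (0 : Sp N) 1, Integrable (fun h => sd (w0 s) x h * ker ((N : ℝ) + 2 * s) h)
      ∧ S ((N : ℝ) + 2 * s) 0 (w0 s) x = k)
    (hw : Good ((N : ℝ) + 2 * s) (w0 s : Sp N → ℝ)) {lam : ℝ} (hlam : lam ≠ 0) {c : Sp N → ℝ}
    (hc : MemLp c ⊤ (volume.restrict (ball 0 1)))
    (hc0 : ∀ᵐ x ∂(volume.restrict (ball (0 : Sp N) 1)), c x ≤ 0) (μ₁ : ℝ) {θ : ℝ}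
    (hθ : 0 ≤ θ) :
    ∃ μ g u : Sp N → ℝ, MemLp μ ⊤ (volume.restrict (ball 0 1)) ∧
      (∀ᵐ x ∂(volume.restrict (ball (0 : Sp N) 1)), μ₁ ≤ μ x) ∧
      (∀ m : ENNReal, m ≠ ⊤ → MemLp g m (volume.restrict (ball 0 1))) ∧
      (∀ᵐ x ∂(volume.restrict (ball (0 : Sp N) 1)), 0 < lam * g x) ∧
      (∀ x ∈ ball (0 : Sp N) 1, 0 < u x) ∧
      IsRegularSol s (ball 0 1) μ c (fun x => θ * g x) lam u ∧
      IsRegularSol s (ball 0 1) μ c (fun x => θ * g x) lam (fun x => θ * u x) := by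
  have hp := expo_of hN hs
  have ha := aConst_pos hN hs
  have hps : (N : ℝ) + 2 * s = Module.finrank ℝ (Sp N) + 2 * s := by simp
  have hs0 : 0 < s := by linarith [hs.1]
  have hreg := fun (u : Sp N → ℝ) (hu : Good ((N : ℝ) + 2 * s) u) (K : ℝ)
    (hH : ∀ x y, |u x - u y| ≤ K * ‖x - y‖ ^ s) (μ f : Sp N → ℝ) =>
      Good.regular hN hs hu hH (μ := μ) (c := c) (f := f) (lam := lam)
  set p := (N : ℝ) + 2 * s with hpdef
  set a := aConst N s with hadef
  have : IsFiniteMeasure (volume.restrict (ball (0 : Sp N) 1)) :=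
    ⟨by simpa using measure_ball_lt_top⟩
  obtain ⟨δ, hδ, hδG⟩ := exists_le_Gq_w0 hp hps
  obtain ⟨C, hC0, hC⟩ := exists_ae_bound hc
  have hU : Good p (U0 s : Sp N → ℝ) := (hw.const_mul 3).add (hw.sq.const_mul (-1))
  set t : ℝ := 2 / (9 * (1 + θ) * (|μ₁| + 1)) with ht
  have ht0 : 0 < t := by positivity
  set F : Sp N → ℝ := fun x => a / 2 * S p 0 (U0 s) x - c x * U0 s x with hF
  have hFm : AEStronglyMeasurable F (volume.restrict (ball (0 : Sp N) 1)) :=
    ((measurable_S p 0 hU.cont.measurable).const_mul _).aestronglyMeasurable.sub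
      (hc.1.mul hU.cont.aestronglyMeasurable)
  have hDm : Measurable fun x : Sp N => (a / 2 * Gq p (U0 s) x)⁻¹ :=
    ((measurable_Gq hU.cont.measurable p).const_mul _).inv
  have hb : ∀ᵐ x ∂(volume.restrict (ball (0 : Sp N) 1)),
      δ ≤ Gq p (w0 s) x ∧ Gq p (w0 s) x ≤ Gq p (U0 s) x ∧ Gq p (U0 s) x ≤ 9 * Gq p (w0 s) x ∧
      a * Gq p (w0 s) x ≤ F x ∧ F x ≤ (3 * a * k + 3 * C) + a * Gq p (w0 s) x := by
    filter_upwards [hC, hc0, ae_restrict_mem measurableSet_ball] with x h1 h2 h3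
    have hx : ‖x‖ < 1 := by simpa using h3
    have h4 := S_U0 hp hps hx (hget x h3).1 (hget x h3).2
    have h5 := w0_nonneg s x
    have h6 := w0_le_one hs0.le x
    have h7 := U0_bounds hs0.le x
    have h8 := (abs_le.mp h1).1
    have h9 : 0 ≤ -c x * U0 s x := mul_nonneg (by linarith) (by linarith)
    have h10 : -c x * U0 s x ≤ C * 3 :=
      mul_le_mul (by linarith) h7.2 (by linarith) hC0
    have hak : 0 < a * k := mul_pos ha hk
    refine ⟨hδG x hx, (Gq_U0_bounds hp hps hx).1, (Gq_U0_bounds hp hps hx).2, ?_, ?_⟩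
    · simp only [hF, h4]; nlinarith
    · simp only [hF, h4]; nlinarith
  have hH : ∀ r : ℝ, ∀ x y : Sp N, |r * U0 s x - r * U0 s y| ≤ (|r| * 6) * ‖x - y‖ ^ s :=
    fun r x y => by
      rw [← mul_sub, abs_mul, mul_assoc]
      exact mul_le_mul_of_nonneg_left (U0_holder hs0.le hs.2.le x y) (abs_nonneg r)
  refine ⟨fun x => (t * (1 + θ))⁻¹ * (F x * (a / 2 * Gq p (U0 s) x)⁻¹),
    fun x => t / ((1 + θ) * lam) * F x, fun x => t * U0 s x, ?_, ?_, fun m hm => ?_, ?_,
    fun x hx => mul_pos ht0 ((w0_pos s (by simpa using hx)).trans_le (U0_bounds hs0.le x).1),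
    hreg _ (hU.const_mul t) _ (hH t) _ _ ?_, ?_⟩
  · refine MemLp.const_mul (memLp_top_of_bound (hFm.mul hDm.aestronglyMeasurable)
      ((3 * a * k + 3 * C) * (a / 2 * δ)⁻¹ + 2) (hb.mono fun x hx => ?_)) _
    obtain ⟨h1, h2, h3, h4, h5⟩ := hx
    have hD : 0 < a / 2 * Gq p (U0 s) x := mul_pos (by positivity) (by linarith)
    have hF0 : 0 ≤ F x := le_trans (mul_nonneg ha.le (by linarith)) h4
    rw [Pi.mul_apply, Real.norm_of_nonneg (mul_nonneg hF0 (inv_nonneg.mpr hD.le)), ← div_eq_mul_inv,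
      div_le_iff₀ hD, add_mul]
    have h6 : 1 ≤ (a / 2 * δ)⁻¹ * (a / 2 * Gq p (U0 s) x) := by
      rw [inv_mul_eq_div, one_le_div (by positivity)]
      exact mul_le_mul_of_nonneg_left (by linarith) (by positivity)
    have h7 : 0 ≤ 3 * a * k + 3 * C := by positivity
    nlinarith [mul_le_mul_of_nonneg_left h6 h7, mul_le_mul_of_nonneg_left h2 ha.le]
  · refine hb.mono fun x hx => ?_
    obtain ⟨h1, h2, h3, h4, h5⟩ := hx
    have hD : 0 < a / 2 * Gq p (U0 s) x := mul_pos (by positivity) (by linarith)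
    have h6 : 2 / 9 ≤ F x * (a / 2 * Gq p (U0 s) x)⁻¹ := by
      rw [← div_eq_mul_inv, le_div_iff₀ hD]
      nlinarith [mul_le_mul_of_nonneg_left h3 ha.le]
    have h7 : (t * (1 + θ))⁻¹ = 9 / 2 * (|μ₁| + 1) := by
      rw [ht]; field_simp
    rw [h7]
    nlinarith [le_abs_self μ₁, abs_nonneg μ₁]
  · refine MemLp.const_mul (MemLp.of_le ((memLp_const (3 * a * k + 3 * C)).add
      ((memLp_bil_w0 hp hps hm).const_mul a)) hFm (hb.mono fun x hx => ?_)) _
    obtain ⟨h1, h2, h3, h4, h5⟩ := hx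
    have hF0 : 0 ≤ F x := le_trans (mul_nonneg ha.le (by linarith)) h4
    rw [Real.norm_of_nonneg hF0]
    exact h5.trans (le_abs_self _)
  · refine hb.mono fun x hx => ?_
    obtain ⟨h1, h2, h3, h4, h5⟩ := hx
    have hF0 : 0 < F x := lt_of_lt_of_le (mul_pos ha (by linarith)) h4
    have : lam * (t / ((1 + θ) * lam) * F x) = t / (1 + θ) * F x := by field_simp
    rw [this]; positivity
  · refine hb.mono fun x hx => ?_
    obtain ⟨h1, h2, h3, h4, h5⟩ := hx
    have hD : Gq p (U0 s) x ≠ 0 := by linarith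
    rw [S_const_mul, Gq_const_mul]
    have e : a / 2 * S p 0 (U0 s) x = F x + c x * U0 s x := by simp only [hF]; ring
    rw [mul_left_comm (a / 2) t, e]
    field_simp
    ring
  · have e0 : (fun x : Sp N => θ * (t * U0 s x)) = fun x => θ * t * U0 s x := by
      ext x; ring
    rw [e0]
    refine hreg _ (hU.const_mul (θ * t)) _ (hH (θ * t)) _ _ (hb.mono fun x hx => ?_)
    obtain ⟨h1, h2, h3, h4, h5⟩ := hx
    have hD : Gq p (U0 s) x ≠ 0 := by linarith
    rw [S_const_mul, Gq_const_mul]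
    have e : a / 2 * S p 0 (U0 s) x = F x + c x * U0 s x := by simp only [hF]; ring
    rw [mul_left_comm (a / 2) (θ * t), e]
    field_simp
    ring

end Pool.Agent.P.MP_c7f95f_an
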