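import Mathlib

/-!
The one-dimensional computation behind the identity `(-Δ)^s (1 - |x|²)_+^s = const` in the ball.
-/

namespace Pool.Agent.P.MP_c7f95f_an.T

open MeasureTheory Set Filter Topology

/-- The positive part raised to the power `s`. -/
noncomputable def Q (s y : ℝ) : ℝ := (max y 0) ^ s

variable {s A b : ℝ}

theorem continuous_Q (hs : 0 < s) : Continuous (Q s) :=
  (continuous_id.max continuous_const).rpow_const fun _ => Or.inr hs.le

theorem Q_nonneg (s y : ℝ) : 0 ≤ Q s y := Real.rpow_nonneg (le_max_right _ _) _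

theorem Q_of_nonneg {y : ℝ} (hy : 0 ≤ y) : Q s y = y ^ s := by rw [Q, max_eq_left hy]

theorem Q_of_nonpos (hs : 0 < s) {y : ℝ} (hy : y ≤ 0) : Q s y = 0 := by
  rw [Q, max_eq_right hy, Real.zero_rpow hs.ne']

theorem Q_mul {c : ℝ} (hc : 0 ≤ c) (y : ℝ) : Q s (c * y) = c ^ s * Q s y := by
  unfold Q
  rw [← Real.mul_rpow hc (le_max_right _ _), mul_max_of_nonneg _ _ hc, mul_zero]

theorem Q_mono (hs : 0 < s) {x y : ℝ} (h : x ≤ y) : Q s x ≤ Q s y :=
  Real.rpow_le_rpow (le_max_right _ _) (max_le_max h le_rfl) hs.le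

theorem Q_le_one (hs : 0 < s) {y : ℝ} (hy : y ≤ 1) : Q s y ≤ 1 := by
  have := Q_mono hs hy
  rwa [Q_of_nonneg zero_le_one, Real.one_rpow] at this

theorem Q_taylor (hs : 0 < s) (hs1 : s ≤ 1) (u : ℝ) : |Q s (1 + u) - 1 - s * u| ≤ 10 * u ^ 2 := by
  rcases le_total u (-1 / 2) with hu | hu
  · have h1 := Q_nonneg s (1 + u)
    have h2 : Q s (1 + u) ≤ 1 := Q_le_one hs (by linarith)
    rw [abs_le]; constructor <;> nlinarith
  · have h0 : 0 < 1 + u := by linarith
    rw [Q_of_nonneg h0.le]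
    have h1 : (1 + u) ^ s ≤ 1 + s * u := rpow_one_add_le_one_add_mul_self (by linarith) hs.le hs1
    have h2 : 1 + s * Real.log (1 + u) ≤ (1 + u) ^ s := by
      rw [Real.rpow_def_of_pos h0, mul_comm (Real.log _), add_comm]
      exact Real.add_one_le_exp _
    have h3 : 1 - (1 + u)⁻¹ ≤ Real.log (1 + u) := Real.one_sub_inv_le_log_of_pos h0
    have h4 : u - 2 * u ^ 2 ≤ 1 - (1 + u)⁻¹ := by
      rw [inv_eq_one_div, le_sub_comm, div_le_iff₀ h0]
      nlinarith [sq_nonneg u, mul_nonneg (sq_nonneg u) (by linarith : 0 ≤ u + 1 / 2)]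
    have h5 : s * (u - 2 * u ^ 2) ≤ s * Real.log (1 + u) :=
      mul_le_mul_of_nonneg_left (h4.trans h3) hs.le
    rw [abs_le]; constructor <;> nlinarith [sq_nonneg u]

theorem Q_taylor' (hs : 0 < s) (hs1 : s ≤ 1) (hA : 0 < A) (y : ℝ) :
    |Q s (A + y) - A ^ s - s * A ^ (s - 1) * y| ≤ 10 * A ^ (s - 2) * y ^ 2 := by
  have h := Q_taylor hs hs1 (y / A)
  have e1 : A + y = A * (1 + y / A) := by field_simp
  have hAs := Real.rpow_pos_of_pos hA s
  have e2 : A ^ (s - 1) = A ^ s / A := Real.rpow_sub_one hA.ne' s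
  have e3 : A ^ (s - 2) = A ^ s / A ^ 2 := by
    rw [Real.rpow_sub hA]; norm_cast
  rw [e1, Q_mul hA.le, e2, e3]
  calc _ = A ^ s * |Q s (1 + y / A) - 1 - s * (y / A)| := by
        rw [← abs_of_pos hAs, ← abs_mul, abs_of_pos hAs]; congr 1; field_simp
    _ ≤ A ^ s * (10 * (y / A) ^ 2) := by gcongr
    _ = _ := by field_simp

theorem Q_holder (hs : 0 < s) (hs1 : s ≤ 1) (x y : ℝ) : |Q s x - Q s y| ≤ |x - y| ^ s := by
  wlog h : y ≤ x generalizing x y
  · rw [abs_sub_comm, abs_sub_comm x]; exact this y x (le_of_not_ge h)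
  have h1 : max y 0 ≤ max x 0 := max_le_max h le_rfl
  have h2 : max x 0 - max y 0 ≤ |x - y| := (le_abs_self _).trans (abs_max_sub_max_le_abs x y 0)
  rw [abs_of_nonneg (sub_nonneg.mpr (Q_mono hs h)), sub_le_iff_le_add]
  calc Q s x = ((max x 0 - max y 0) + max y 0) ^ s := by rw [Q, sub_add_cancel]
    _ ≤ (max x 0 - max y 0) ^ s + (max y 0) ^ s :=
      Real.rpow_add_le_add_rpow (by linarith) (le_max_right _ _) hs.le hs1
    _ ≤ _ := by
      unfold Q
      gcongr

/-- The level `(A - 2 b r - r²) / r²`. -/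
noncomputable def lev (A b r : ℝ) : ℝ := (A - 2 * b * r) / r ^ 2 - 1

/-- The integrand written with the level. -/
noncomputable def G (s A b r : ℝ) : ℝ := Q s (lev A b r) / r

/-- The primitive of `τ^s / (1 + τ)`. -/
noncomputable def Psi (s L : ℝ) : ℝ := ∫ τ in (0 : ℝ)..L, Q s τ / (1 + |τ|)

/-- The positive root of `A - 2 b r - r²`. -/
noncomputable def root (A b : ℝ) : ℝ := -b + Real.sqrt (b ^ 2 + A)

/-- The partner point with the same level for `-b`. -/
noncomputable def mob (A b r : ℝ) : ℝ := A * r / (A - 2 * b * r)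

theorem Q_eq_G {r : ℝ} (hr : 0 < r) :
    Q s (A - 2 * b * r - r ^ 2) * r ^ (-1 - 2 * s) = G s A b r := by
  have e : A - 2 * b * r - r ^ 2 = r ^ 2 * lev A b r := by unfold lev; field_simp
  rw [e, Q_mul (sq_nonneg r), G, ← Real.rpow_natCast, ← Real.rpow_mul hr.le, mul_right_comm,
    ← Real.rpow_add hr]
  rw [show ((2 : ℕ) : ℝ) * s + (-1 - 2 * s) = -1 by push_cast; ring, Real.rpow_neg_one]
  ring

theorem root_pos (hA : 0 < A) (b : ℝ) : 0 < root A b := by
  have : |b| < Real.sqrt (b ^ 2 + A) := Real.lt_sqrt_of_sq_lt (by rw [sq_abs]; linarith)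
  unfold root; linarith [le_abs_self b]

theorem root_eq (hA : 0 < A) (b : ℝ) : A - 2 * b * root A b = root A b ^ 2 := by
  have := Real.sq_sqrt (show 0 ≤ b ^ 2 + A by positivity)
  unfold root; nlinarith

theorem root_mul (hA : 0 < A) (b : ℝ) : root A b * root A (-b) = A := by
  have := Real.sq_sqrt (show 0 ≤ b ^ 2 + A by positivity)
  unfold root; rw [neg_sq]; nlinarith

theorem sq_le_of_le_root (hA : 0 < A) {r : ℝ} (hr : 0 < r) (h : r ≤ root A b) :
    r ^ 2 ≤ A - 2 * b * r := by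
  have h1 := root_eq hA b
  have h2 := root_mul hA b
  have h3 := root_pos hA (-b)
  have h4 : root A (-b) = root A b + 2 * b := by unfold root; rw [neg_sq]; ring
  nlinarith [mul_nonneg (sub_nonneg.mpr h) (add_pos hr h3).le]

theorem G_eq_zero (hs : 0 < s) (hA : 0 < A) {r : ℝ} (h : root A b ≤ r) : G s A b r = 0 := by
  have h0 := root_pos hA b
  have hr : 0 < r := h0.trans_le h
  have h1 := root_eq hA b
  have h3 := root_pos hA (-b)
  have h4 : root A (-b) = root A b + 2 * b := by unfold root; rw [neg_sq]; ring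
  have : A - 2 * b * r ≤ r ^ 2 := by
    nlinarith [mul_nonneg (sub_nonneg.mpr h) (add_pos hr h3).le]
  rw [G, Q_of_nonpos hs, zero_div]
  rw [lev, sub_nonpos, div_le_one (by positivity)]; exact this

theorem continuousOn_G (hs : 0 < s) (A b : ℝ) : ContinuousOn (G s A b) (Ioi 0) := by
  refine ContinuousOn.div ((continuous_Q hs).comp_continuousOn ?_) continuousOn_id
    fun r hr => (mem_Ioi.mp hr).ne'
  exact (ContinuousOn.div (by fun_prop) (by fun_prop)
    fun r hr => pow_ne_zero 2 (mem_Ioi.mp hr).ne').sub continuousOn_const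

theorem hasDerivAt_Psi (hs : 0 < s) (L : ℝ) : HasDerivAt (Psi s) (Q s L / (1 + |L|)) L :=
  (Continuous.integral_hasStrictDerivAt ((continuous_Q hs).div (by fun_prop)
    fun τ => by positivity) 0 L).hasDerivAt

theorem intervalIntegrable_G (hs : 0 < s) (A b : ℝ) {x y : ℝ} (hx : 0 < x) (hy : 0 < y) :
    IntervalIntegrable (G s A b) volume x y :=
  ((continuousOn_G hs A b).mono fun _ ht => (lt_min hx hy).trans_le ht.1).intervalIntegrable

/-- The two branches together have the level distribution `dτ / (1 + τ)`. -/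
theorem pair_eq (hs : 0 < s) (hA : 0 < A) {ε : ℝ} (hε : 0 < ε) (hεr : ε ≤ root A b) :
    (∫ r in ε..root A b, G s A b r) + ∫ r in mob A b ε..root A (-b), G s A (-b) r =
      Psi s (lev A b ε) := by
  have hr0 := root_pos hA b
  have hr1 := root_pos hA (-b)
  have key : ∀ r ∈ uIcc ε (root A b), HasDerivAt
      (fun r => Psi s (lev A b r) + ∫ t in root A (-b)..mob A b r, G s A (-b) t)
      (-G s A b r) r := by
    intro r hr
    rw [uIcc_of_le hεr] at hr
    have hr' : 0 < r := hε.trans_le hr.1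
    have hsq := sq_le_of_le_root hA hr' hr.2
    have hD : 0 < A - 2 * b * r := lt_of_lt_of_le (by positivity) hsq
    have hm : 0 < mob A b r := by unfold mob; positivity
    have hl0 : 0 ≤ lev A b r := by rw [lev, sub_nonneg, one_le_div (by positivity)]; exact hsq
    have dA : HasDerivAt (fun r => A - 2 * b * r) (-(2 * b)) r := by
      simpa using ((hasDerivAt_id r).const_mul (2 * b)).const_sub A
    have d1 : HasDerivAt (lev A b) ((-(2 * b) * r ^ 2 - (A - 2 * b * r) * (2 * r)) / (r ^ 2) ^ 2)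
        r := by
      exact ((dA.div (hasDerivAt_pow 2 r) (by positivity)).sub_const 1).congr_deriv (by simp)
    have d2 : HasDerivAt (mob A b) ((A * (A - 2 * b * r) - A * r * -(2 * b)) / (A - 2 * b * r) ^ 2)
        r := by
      exact (((hasDerivAt_id r).const_mul A).div dA hD.ne').congr_deriv (by simp)
    have d3 : HasDerivAt (fun y => ∫ t in root A (-b)..y, G s A (-b) t) (G s A (-b) (mob A b r))
        (mob A b r) :=
      intervalIntegral.integral_hasDerivAt_right (intervalIntegrable_G hs A (-b) hr1 hm)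
        ((continuousOn_G hs A (-b)).stronglyMeasurableAtFilter isOpen_Ioi _ hm)
        ((continuousOn_G hs A (-b)).continuousAt (Ioi_mem_nhds hm))
    have d4 := ((hasDerivAt_Psi hs _).comp r d1).add (d3.comp r d2)
    refine d4.congr_deriv ?_
    have e : lev A (-b) (mob A b r) = lev A b r := by
      unfold lev mob; field_simp; ring
    have e' : 1 + lev A b r = (A - 2 * b * r) / r ^ 2 := by unfold lev; ring
    simp only [G]
    rw [e, abs_of_nonneg hl0, e', mob]
    field_simp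
    ring
  have h := intervalIntegral.integral_eq_sub_of_hasDerivAt key
    (intervalIntegrable_G hs A b hε hr0).neg
  have e1 : lev A b (root A b) = 0 := by rw [lev, root_eq hA, div_self (by positivity), sub_self]
  have e2 : mob A b (root A b) = root A (-b) := by
    rw [mob, root_eq hA, div_eq_iff (by positivity)]
    have := root_mul hA b
    nlinarith
  simp only [e1, e2, intervalIntegral.integral_same, intervalIntegral.integral_neg] at h
  rw [intervalIntegral.integral_symm (mob A b ε)] at h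
  have e3 : Psi s 0 = 0 := by simp [Psi]
  linarith

/-- One branch of the integrand with the linear term removed. -/
noncomputable def kt (s A b r : ℝ) : ℝ :=
  (A ^ s - Q s (A - 2 * b * r - r ^ 2) - 2 * b * s * A ^ (s - 1) * r) * r ^ (-1 - 2 * s)

theorem continuousOn_kt (hs : 0 < s) (A b : ℝ) : ContinuousOn (kt s A b) (Ioi 0) := by
  have := continuous_Q hs
  exact ContinuousOn.mul (Continuous.continuousOn (by fun_prop))
    (continuousOn_id.rpow_const fun r hr => Or.inl (mem_Ioi.mp hr).ne')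

theorem mul_rpow_eq {r : ℝ} (hr : 0 < r) : r * r ^ (-1 - 2 * s) = r ^ (-(2 * s)) := by
  rw [show -(2 * s) = 1 + (-1 - 2 * s) by ring, Real.rpow_add hr, Real.rpow_one]

theorem kt_eq {r : ℝ} (hr : 0 < r) : kt s A b r =
    A ^ s * r ^ (-1 - 2 * s) - G s A b r - 2 * b * s * A ^ (s - 1) * r ^ (-(2 * s)) := by
  rw [← Q_eq_G hr, ← mul_rpow_eq hr, kt]; ring

theorem integrableOn_G (hs : 0 < s) (hA : 0 < A) {ε : ℝ} (hε : 0 < ε) (hεr : ε ≤ root A b) :
    IntegrableOn (G s A b) (Ioi ε) ∧ ∫ r in Ioi ε, G s A b r = ∫ r in ε..root A b, G s A b r := by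
  have h0 : ∀ r ∈ Ioi ε \ Ioc ε (root A b), G s A b r = 0 := fun r hr =>
    G_eq_zero hs hA (le_of_not_ge fun h => hr.2 ⟨hr.1, h⟩)
  refine ⟨?_, ?_⟩
  · exact (intervalIntegrable_G hs A b hε (root_pos hA b)).1.of_forall_sdiff_eq_zero
      measurableSet_Ioi h0
  · rw [intervalIntegral.integral_of_le hεr]
    exact setIntegral_eq_of_subset_of_forall_sdiff_eq_zero measurableSet_Ioi Ioc_subset_Ioi_self h0

theorem integral_kt (hs : 1 / 2 < s) (hA : 0 < A) {ε : ℝ} (hε : 0 < ε) (hεr : ε ≤ root A b) :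
    IntegrableOn (kt s A b) (Ioi ε) ∧ ∫ r in Ioi ε, kt s A b r =
      A ^ s * (ε ^ (-s)) ^ 2 / (2 * s) - (∫ r in ε..root A b, G s A b r)
        - 2 * b * s * A ^ (s - 1) / (2 * s - 1) * ε ^ (-(2 * s - 1)) := by
  have hs0 : 0 < s := by linarith
  obtain ⟨h1, h2⟩ := integrableOn_G (b := b) hs0 hA hε hεr
  have i1 := (integrableOn_Ioi_rpow_of_lt (a := -1 - 2 * s) (by linarith) hε).const_mul (A ^ s)
  have i2 := (integrableOn_Ioi_rpow_of_lt (a := -(2 * s)) (by linarith) hε).const_mul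
    (2 * b * s * A ^ (s - 1))
  have e : EqOn (fun r => A ^ s * r ^ (-1 - 2 * s) - G s A b r
      - 2 * b * s * A ^ (s - 1) * r ^ (-(2 * s))) (kt s A b) (Ioi ε) :=
    fun r hr => (kt_eq (hε.trans hr)).symm
  have i3 : IntegrableOn (fun r => A ^ s * r ^ (-1 - 2 * s) - G s A b r) (Ioi ε) := i1.sub h1
  refine ⟨IntegrableOn.congr_fun (i3.sub i2) e measurableSet_Ioi, ?_⟩
  rw [← setIntegral_congr_fun measurableSet_Ioi e, integral_sub i3 i2, integral_sub i1 h1, h2,
    integral_const_mul, integral_const_mul, integral_Ioi_rpow_of_lt (by linarith) hε,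
    integral_Ioi_rpow_of_lt (by linarith) hε, ← Real.rpow_natCast, ← Real.rpow_mul hε.le,
    show -1 - 2 * s + 1 = -s * ((2 : ℕ) : ℝ) by push_cast; ring,
    show -(2 * s) + 1 = -(2 * s - 1) by ring]
  have : 2 * s - 1 ≠ 0 := by linarith
  push_cast
  field_simp

theorem integrableOn_kt (hs : 1 / 2 < s) (hs1 : s < 1) (hA : 0 < A) (b : ℝ) :
    IntegrableOn (kt s A b) (Ioi 0) := by
  have hs0 : 0 < s := by linarith
  have hr0 := root_pos hA b
  set ε := min 1 (root A b)
  have hε : 0 < ε := lt_min one_pos hr0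
  rw [← Ioc_union_Ioi_eq_Ioi hε.le]
  refine IntegrableOn.union ?_ (integral_kt hs hA hε (min_le_right _ _)).1
  have i1 : IntegrableOn (fun r : ℝ => r ^ (1 - 2 * s)) (Ioc 0 ε) :=
    (intervalIntegral.intervalIntegrable_rpow' (by linarith)).1
  refine Integrable.mono'
    (i1.const_mul (s * A ^ (s - 1) + 10 * A ^ (s - 2) * (2 * |b| + 1) ^ 2))
    (((continuousOn_kt hs0 A b).mono Ioc_subset_Ioi_self).aestronglyMeasurable measurableSet_Ioc) ?_
  rw [ae_restrict_iff' measurableSet_Ioc]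
  refine Eventually.of_forall fun r hr => ?_
  have hr1 : r ≤ 1 := hr.2.trans (min_le_left _ _)
  have hr0 : 0 < r := hr.1
  have h1 := Q_taylor' hs0 hs1.le hA (-(2 * b * r) - r ^ 2)
  have h2 : |-(2 * b * r) - r ^ 2| ≤ (2 * |b| + 1) * r := by
    refine (abs_sub _ _).trans ?_
    rw [abs_neg, abs_mul, abs_mul, abs_two, abs_of_pos hr0, abs_of_nonneg (sq_nonneg r)]
    nlinarith
  have h3 : (-(2 * b * r) - r ^ 2) ^ 2 ≤ ((2 * |b| + 1) * r) ^ 2 := sq_le_sq' (abs_le.mp h2).1
    (abs_le.mp h2).2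
  have hp1 := Real.rpow_pos_of_pos hA (s - 1)
  have hp2 := Real.rpow_pos_of_pos hA (s - 2)
  have h4 : |A ^ s - Q s (A - 2 * b * r - r ^ 2) - 2 * b * s * A ^ (s - 1) * r| ≤
      (s * A ^ (s - 1) + 10 * A ^ (s - 2) * (2 * |b| + 1) ^ 2) * r ^ 2 := by
    rw [show A + (-(2 * b * r) - r ^ 2) = A - 2 * b * r - r ^ 2 by ring] at h1
    have h5 : 10 * A ^ (s - 2) * (-(2 * b * r) - r ^ 2) ^ 2 ≤
        10 * A ^ (s - 2) * ((2 * |b| + 1) * r) ^ 2 := by gcongr
    have h6 : 0 ≤ s * A ^ (s - 1) * r ^ 2 := by positivity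
    rw [abs_le] at h1 ⊢
    constructor <;> nlinarith [h1.1, h1.2]
  rw [kt, norm_mul, Real.norm_eq_abs, Real.norm_of_nonneg (by positivity),
    show 1 - 2 * s = ((2 : ℕ) : ℝ) + (-1 - 2 * s) by push_cast; ring, Real.rpow_add hr0,
    Real.rpow_natCast, ← mul_assoc]
  gcongr

theorem tendsto_integral_Ioi {f : ℝ → ℝ} (hf : IntegrableOn f (Ioi 0)) :
    Tendsto (fun ε => ∫ r in Ioi ε, f r) (𝓝[>] 0) (𝓝 (∫ r in Ioi 0, f r)) := by
  have h : Tendsto (fun ε => ∫ r in Ioi 0, (Ioi ε).indicator f r) (𝓝[>] 0)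
      (𝓝 (∫ r in Ioi 0, f r)) := by
    refine tendsto_integral_filter_of_dominated_convergence (fun r => ‖f r‖)
      (Eventually.of_forall fun ε => hf.aestronglyMeasurable.indicator measurableSet_Ioi)
      (Eventually.of_forall fun ε => Eventually.of_forall fun r => norm_indicator_le_norm_self _ _)
      hf.norm ?_
    rw [ae_restrict_iff' measurableSet_Ioi]
    refine Eventually.of_forall fun r hr => tendsto_const_nhds.congr' ?_
    filter_upwards [nhdsWithin_le_nhds (gt_mem_nhds (mem_Ioi.mp hr))] with ε hε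
    exact (indicator_of_mem (mem_Ioi.mpr hε) f).symm
  refine h.congr' ?_
  filter_upwards [self_mem_nhdsWithin] with ε hε
  rw [setIntegral_indicator measurableSet_Ioi, Ioi_inter_Ioi, max_eq_right (mem_Ioi.mp hε).le]

theorem eventually_den (hA : 0 < A) (b : ℝ) : ∀ᶠ ε in 𝓝[>] (0 : ℝ), 0 < A - 2 * b * ε := by
  have : Tendsto (fun ε : ℝ => A - 2 * b * ε) (𝓝 0) (𝓝 (A - 2 * b * 0)) :=
    Continuous.tendsto (by fun_prop) 0
  exact nhdsWithin_le_nhds (this.eventually (lt_mem_nhds (by simpa using hA)))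

theorem tendsto_mob (hA : 0 < A) (b : ℝ) : Tendsto (mob A b) (𝓝[>] 0) (𝓝[>] 0) := by
  refine tendsto_nhdsWithin_iff.mpr ⟨?_, ?_⟩
  · have : ContinuousAt (mob A b) 0 :=
      ContinuousAt.div (by fun_prop) (by fun_prop) (by simpa using hA.ne')
    simpa [mob] using this.tendsto.mono_left nhdsWithin_le_nhds
  · filter_upwards [self_mem_nhdsWithin, eventually_den hA b] with ε hε h
    have : 0 < ε := hε
    exact div_pos (by positivity) h

theorem tendsto_rpow_sub {α : ℝ} (h0 : 0 < α) (h1 : α < 1) (hA : 0 < A) (b : ℝ) :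
    Tendsto (fun ε => ε ^ (-α) - mob A b ε ^ (-α)) (𝓝[>] 0) (𝓝 0) := by
  have hlim : Tendsto (fun ε : ℝ => ε ^ (1 - α) * (α * (2 * |b| / A) + 10 * (2 * b / A) ^ 2 * ε))
      (𝓝[>] 0) (𝓝 0) := by
    have hc : Continuous fun ε : ℝ => ε ^ (1 - α) * (α * (2 * |b| / A) + 10 * (2 * b / A) ^ 2 * ε) :=
      (continuous_id.rpow_const fun _ => Or.inr (by linarith)).mul (by fun_prop)
    simpa [Real.zero_rpow (show 1 - α ≠ 0 by linarith)] using
      (hc.tendsto 0).mono_left nhdsWithin_le_nhds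
  refine squeeze_zero_norm' ?_ hlim
  filter_upwards [self_mem_nhdsWithin, eventually_den hA b] with ε hε hD
  have hε0 : 0 < ε := hε
  have hu : 0 < 1 + -(2 * b * ε / A) := by
    rw [show 1 + -(2 * b * ε / A) = (A - 2 * b * ε) / A by field_simp; ring]; positivity
  have e1 : mob A b ε = ε / (1 + -(2 * b * ε / A)) := by unfold mob; field_simp; ring
  have h := Q_taylor h0 h1.le (-(2 * b * ε / A))
  rw [Q_of_nonneg hu.le] at h
  have h2 : |-(2 * b * ε / A)| = 2 * |b| / A * ε := by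
    rw [abs_neg, abs_div, abs_mul, abs_mul, abs_two, abs_of_pos hε0, abs_of_pos hA]; ring
  have h3 : |1 - (1 + -(2 * b * ε / A)) ^ α| ≤
      ε * (α * (2 * |b| / A) + 10 * (2 * b / A) ^ 2 * ε) := by
    have h4 : |α * -(2 * b * ε / A)| = α * (2 * |b| / A * ε) := by
      rw [abs_mul, h2, abs_of_pos h0]
    have h5 := abs_add_le ((1 + -(2 * b * ε / A)) ^ α - 1 - α * -(2 * b * ε / A))
      (α * -(2 * b * ε / A))
    rw [sub_add_cancel, abs_sub_comm, h4] at h5
    calc _ ≤ _ := h5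
      _ ≤ 10 * (-(2 * b * ε / A)) ^ 2 + α * (2 * |b| / A * ε) := by gcongr
      _ = _ := by ring
  rw [e1, Real.div_rpow hε0.le hu.le, Real.rpow_neg hu.le, div_inv_eq_mul, ← mul_one_sub,
    norm_mul, Real.norm_of_nonneg (by positivity), Real.norm_eq_abs, sub_eq_neg_add 1 α,
    Real.rpow_add hε0, Real.rpow_one, mul_assoc (ε ^ (-α))]
  gcongr

/-- The one-dimensional fractional Laplacian along a line. -/
noncomputable def jj (s A b : ℝ) : ℝ :=
  ∫ r in Ioi 0, (2 * A ^ s - Q s (A - 2 * b * r - r ^ 2) - Q s (A + 2 * b * r - r ^ 2)) *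
    r ^ (-1 - 2 * s)

theorem tendsto_jj (hs : 1 / 2 < s) (hs1 : s < 1) (hA : 0 < A) (b : ℝ) :
    Tendsto (fun ε => (1 + lev A b ε) ^ s / s - Psi s (lev A b ε)) (𝓝[>] 0) (𝓝 (jj s A b)) := by
  have hs0 : 0 < s := by linarith
  have i1 := integrableOn_kt hs hs1 hA b
  have i2 := integrableOn_kt hs hs1 hA (-b)
  have e0 : jj s A b = (∫ r in Ioi 0, kt s A b r) + ∫ r in Ioi 0, kt s A (-b) r := by
    rw [← integral_add i1 i2, jj]
    congr 1; ext r
    simp only [kt]
    rw [show A - 2 * -b * r - r ^ 2 = A + 2 * b * r - r ^ 2 by ring]; ring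
  have t1 := (tendsto_integral_Ioi i1).add ((tendsto_integral_Ioi i2).comp (tendsto_mob hA b))
  have t2 := (tendsto_rpow_sub (α := 2 * s - 1) (by linarith) (by linarith) hA b).const_mul
    (2 * b * s * A ^ (s - 1) / (2 * s - 1))
  have t3 := ((tendsto_rpow_sub hs0 hs1 hA b).pow 2).const_mul (A ^ s / (2 * s))
  have t4 := (t1.add t2).sub t3
  rw [mul_zero, add_zero, zero_pow two_ne_zero, mul_zero, sub_zero, ← e0] at t4
  refine t4.congr' ?_
  filter_upwards [self_mem_nhdsWithin, eventually_den hA b,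
    nhdsWithin_le_nhds (ge_mem_nhds (root_pos hA b)),
    (tendsto_mob hA b).eventually self_mem_nhdsWithin,
    (tendsto_mob hA b).eventually (nhdsWithin_le_nhds (ge_mem_nhds (root_pos hA (-b))))]
    with ε hε hD h1 hm h2
  have hε0 : 0 < ε := hε
  have hm0 : 0 < mob A b ε := hm
  have e1 : 1 + lev A b ε = A * (ε * mob A b ε)⁻¹ := by unfold lev mob; field_simp; ring
  have e2 : (1 + lev A b ε) ^ s = A ^ s * (ε ^ (-s) * mob A b ε ^ (-s)) := by
    rw [e1, Real.mul_rpow hA.le (by positivity), Real.inv_rpow (by positivity),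
      ← Real.rpow_neg (by positivity), Real.mul_rpow hε0.le hm0.le]
  simp only [Function.comp]
  rw [(integral_kt hs hA hε0 h1).2, (integral_kt hs hA hm0 h2).2, ← pair_eq hs0 hA hε0 h1, e2]
  field_simp
  ring

/-- The one-dimensional integral does not depend on the line. -/
theorem jj_eq (hs : 1 / 2 < s) (hs1 : s < 1) (hA : 0 < A) (b : ℝ) : jj s A b = jj s 1 0 := by
  have h1 : Tendsto (fun ε => ε / Real.sqrt (A - 2 * b * ε)) (𝓝[>] 0) (𝓝[>] 0) := by
    refine tendsto_nhdsWithin_iff.mpr ⟨?_, ?_⟩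
    · have : ContinuousAt (fun ε => ε / Real.sqrt (A - 2 * b * ε)) 0 :=
        ContinuousAt.div (by fun_prop) (by fun_prop) (by simpa using (Real.sqrt_pos.mpr hA).ne')
      simpa using this.tendsto.mono_left nhdsWithin_le_nhds
    · filter_upwards [self_mem_nhdsWithin, eventually_den hA b] with ε hε h
      exact div_pos hε (Real.sqrt_pos.mpr h)
  refine tendsto_nhds_unique (tendsto_jj hs hs1 hA b)
    (((tendsto_jj hs hs1 one_pos 0).comp h1).congr' ?_)
  filter_upwards [self_mem_nhdsWithin, eventually_den hA b] with ε hε h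
  have hε0 : 0 < ε := hε
  have e : lev 1 0 (ε / Real.sqrt (A - 2 * b * ε)) = lev A b ε := by
    unfold lev
    rw [div_pow, Real.sq_sqrt h.le]
    field_simp
    ring
  simp only [Function.comp, e]

end Pool.Agent.P.MP_c7f95f_an.T
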