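import Pool.Agent.P.MP_c7f95f_an.T.Base
import Pool.Agent.P.MP_c7f95f_an.T.OneD

/-!
The fractional Laplacian of `(1 - |x|²)₊ ^ s` is a positive constant in the unit ball.
-/

namespace Pool.Agent.P.MP_c7f95f_an

open MeasureTheory Set Filter Topology Metric T

variable {E : Type*} [NormedAddCommGroup E] [InnerProductSpace ℝ E] [FiniteDimensional ℝ E]
  [MeasurableSpace E] [BorelSpace E] {s p : ℝ}

/-- Integration in polar coordinates. -/
theorem integral_polar [Nontrivial E] {g : E → ℝ} (hg : Integrable g) :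
    ∫ h, g h = ∫ θ : sphere (0 : E) 1, (∫ r in Ioi (0 : ℝ),
      r ^ (Module.finrank ℝ E - 1) * g (r • (θ : E))) ∂(volume : Measure E).toSphere := by
  have hmp := (volume : Measure E).measurePreserving_homeomorphUnitSphereProd
  have hemb := (homeomorphUnitSphereProd E).measurableEmbedding
  set F : sphere (0 : E) 1 × Ioi (0 : ℝ) → ℝ := fun q => g ((q.2 : ℝ) • (q.1 : E)) with hF
  have hcomp : ∀ x : ({0}ᶜ : Set E), F (homeomorphUnitSphereProd E x) = g x := fun x => by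
    have hx : ‖(x : E)‖ ≠ 0 := norm_ne_zero_iff.mpr x.2
    simp [hF, smul_smul, hx]
  have hms : MeasurableSet ({0}ᶜ : Set E) := (measurableSet_singleton _).compl
  have hFi : Integrable F ((volume : Measure E).toSphere.prod
      (Measure.volumeIoiPow (Module.finrank ℝ E - 1))) := by
    rw [← hmp.integrable_comp_emb hemb]
    have := (integrableOn_iff_comap_subtypeVal hms).mp hg.integrableOn
    exact this.congr (Eventually.of_forall fun x => (hcomp x).symm)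
  calc ∫ h, g h = ∫ x : ({0}ᶜ : Set E), g x ∂(Measure.comap Subtype.val volume) := by
        rw [integral_subtype_comap hms g, restrict_compl_singleton]
    _ = ∫ q, F q ∂((volume : Measure E).toSphere.prod
          (Measure.volumeIoiPow (Module.finrank ℝ E - 1))) := by
        rw [← hmp.integral_comp hemb F]
        simp only [hcomp]
    _ = _ := by
        rw [integral_prod _ hFi]
        congr 1; ext θ
        simp only [Measure.volumeIoiPow, ENNReal.ofReal, hF]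
        rw [integral_withDensity_eq_integral_smul,
          integral_subtype_comap measurableSet_Ioi fun a : ℝ =>
            Real.toNNReal (a ^ (Module.finrank ℝ E - 1)) • g (a • (θ : E)),
          setIntegral_congr_fun measurableSet_Ioi fun x hx => ?_]
        · rw [NNReal.smul_def, Real.coe_toNNReal _ (pow_nonneg hx.out.le _), smul_eq_mul]
        · exact (measurable_subtype_coe.pow_const _).real_toNNReal

omit [InnerProductSpace ℝ E] [FiniteDimensional ℝ E] [MeasurableSpace E] [BorelSpace E] in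
theorem w0_eq_Q (s : ℝ) (x : E) : w0 s x = Q s (1 - ‖x‖ ^ 2) := rfl

omit [InnerProductSpace ℝ E] [FiniteDimensional ℝ E] [MeasurableSpace E] [BorelSpace E] in
theorem w0_cont (hs : 0 < s) : Continuous (w0 s : E → ℝ) :=
  (continuous_Q hs).comp (by fun_prop)

omit [InnerProductSpace ℝ E] [FiniteDimensional ℝ E] [MeasurableSpace E] [BorelSpace E] in
theorem abs_w0_le (hs : 0 < s) (x : E) : |w0 s x| ≤ 1 := by
  rw [w0_eq_Q, abs_of_nonneg (Q_nonneg _ _)]
  exact Q_le_one hs (by nlinarith [sq_nonneg ‖x‖])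

omit [InnerProductSpace ℝ E] [FiniteDimensional ℝ E] [MeasurableSpace E] [BorelSpace E] in
theorem w0_eq_zero (hs : 0 < s) {x : E} (hx : 1 ≤ ‖x‖) : w0 s x = 0 :=
  Q_of_nonpos hs (by nlinarith)

omit [FiniteDimensional ℝ E] [MeasurableSpace E] [BorelSpace E] in
theorem sd_w0 (s : ℝ) (x h : E) : sd (w0 s) x h =
    2 * Q s (1 - ‖x‖ ^ 2) - Q s (1 - ‖x‖ ^ 2 + (-(2 * inner ℝ x h) - ‖h‖ ^ 2))
      - Q s (1 - ‖x‖ ^ 2 + (2 * inner ℝ x h - ‖h‖ ^ 2)) := by
  simp only [sd, w0_eq_Q, norm_add_sq_real, norm_sub_sq_real]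
  congr 2
  · ring
  · congr 1; ring
  · ring_nf

omit [FiniteDimensional ℝ E] [MeasurableSpace E] [BorelSpace E] in
theorem incr_le {x h : E} (hx : ‖x‖ ≤ 2) (hh : ‖h‖ ≤ 1) :
    |-(2 * inner ℝ x h) - ‖h‖ ^ 2| ≤ 5 * ‖h‖ ∧ |2 * inner ℝ x h - ‖h‖ ^ 2| ≤ 5 * ‖h‖ := by
  have h1 := abs_le.mp (abs_real_inner_le_norm x h)
  have h2 : ‖x‖ * ‖h‖ ≤ 2 * ‖h‖ := by gcongr
  have h3 : ‖h‖ ^ 2 ≤ ‖h‖ := by nlinarith [norm_nonneg h]
  constructor <;> rw [abs_le] <;> constructor <;> nlinarith [sq_nonneg ‖h‖]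

omit [FiniteDimensional ℝ E] [MeasurableSpace E] [BorelSpace E] in
theorem abs_sd_w0_le (hs : 0 < s) (hs1 : s ≤ 1) {x h : E} (hx : ‖x‖ < 1) (hh : ‖h‖ ≤ 1) :
    |sd (w0 s) x h| ≤ 502 * (1 - ‖x‖ ^ 2) ^ (s - 2) * ‖h‖ ^ 2 := by
  have hA : 0 < 1 - ‖x‖ ^ 2 := by nlinarith [norm_nonneg x]
  have hA1 : 1 - ‖x‖ ^ 2 ≤ 1 := by nlinarith [sq_nonneg ‖x‖]
  obtain ⟨h1, h2⟩ := incr_le (x := x) (by linarith) hh
  rw [sd_w0, Q_of_nonneg hA.le]
  set A := 1 - ‖x‖ ^ 2
  have t1 := Q_taylor' hs hs1 hA (-(2 * inner ℝ x h) - ‖h‖ ^ 2)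
  have t2 := Q_taylor' hs hs1 hA (2 * inner ℝ x h - ‖h‖ ^ 2)
  have q1 := sq_le_sq' (abs_le.mp h1).1 (abs_le.mp h1).2
  have q2 := sq_le_sq' (abs_le.mp h2).1 (abs_le.mp h2).2
  have hp2 := Real.rpow_pos_of_pos hA (s - 2)
  have hp1 := Real.rpow_pos_of_pos hA (s - 1)
  have h12 : A ^ (s - 1) ≤ A ^ (s - 2) := Real.rpow_le_rpow_of_exponent_ge hA hA1 (by linarith)
  have u1 : 10 * A ^ (s - 2) * (-(2 * inner ℝ x h) - ‖h‖ ^ 2) ^ 2 ≤
      10 * A ^ (s - 2) * (5 * ‖h‖) ^ 2 := by gcongr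
  have u2 : 10 * A ^ (s - 2) * (2 * inner ℝ x h - ‖h‖ ^ 2) ^ 2 ≤
      10 * A ^ (s - 2) * (5 * ‖h‖) ^ 2 := by gcongr
  have u3 : s * A ^ (s - 1) * ‖h‖ ^ 2 ≤ 1 * A ^ (s - 2) * ‖h‖ ^ 2 := by gcongr
  have u4 : 0 ≤ s * A ^ (s - 1) * ‖h‖ ^ 2 := by positivity
  rw [abs_le] at t1 t2 ⊢
  constructor <;> nlinarith [t1.1, t1.2, t2.1, t2.2]

theorem integrable_sd_w0 (hp : Expo E p) (hs : 0 < s) (hs1 : s ≤ 1) {x : E} (hx : ‖x‖ < 1) :
    Integrable (fun h => sd (w0 s) x h * ker p h) := by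
  have hA : 0 < 1 - ‖x‖ ^ 2 := by nlinarith [norm_nonneg x]
  have hM : 0 ≤ 502 * (1 - ‖x‖ ^ 2) ^ (s - 2) := by positivity
  refine ((integrable_cut_ker hp).const_mul (4 * 1 + (4 + 502 * (1 - ‖x‖ ^ 2) ^ (s - 2)))).mono'
    ((measurable_sd_right (w0_cont hs).measurable x).mul (measurable_ker p)).aestronglyMeasurable
    (Eventually.of_forall fun h => ?_)
  rw [norm_mul, Real.norm_of_nonneg (ker_nonneg _ _), ← mul_assoc, Real.norm_eq_abs]
  refine mul_le_mul_of_nonneg_right ?_ (ker_nonneg _ _)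
  have h4 := abs_sd_le (abs_w0_le hs) x h
  refine le_mul_cut h4 ?_ (by norm_num) (by positivity)
  rcases le_total ‖h‖ 1 with hh | hh
  · have := abs_sd_w0_le hs hs1 hx hh
    nlinarith [sq_nonneg ‖h‖]
  · have : 1 ≤ ‖h‖ ^ 2 := by nlinarith
    nlinarith

theorem S_w0_eq (hp : Expo E p) (hps : p = Module.finrank ℝ E + 2 * s) (hs : 1 / 2 < s) {x : E}
    (hx : ‖x‖ < 1) :
    S p 0 (w0 s) x = (volume : Measure E).toSphere.real univ * jj s 1 0 := by
  have hs1 : s < 1 := by linarith [hp.hi]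
  have hs0 : 0 < s := by linarith
  have hN : 1 ≤ Module.finrank ℝ E := le_trans one_le_two hp.two
  have : Nontrivial E := Module.nontrivial_of_finrank_pos (R := ℝ) hN
  have hA : 0 < 1 - ‖x‖ ^ 2 := by nlinarith [norm_nonneg x]
  simp only [S, wt_zero (show p ≠ 0 by linarith [hp.two_lt])]
  rw [integral_polar (integrable_sd_w0 hp hs0 hs1.le hx), ← smul_eq_mul, ← integral_const]
  congr 1; ext θ
  have hθ : ‖(θ : E)‖ = 1 := by simp
  rw [← jj_eq hs hs1 hA (inner ℝ x (θ : E)), jj]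
  refine setIntegral_congr_fun measurableSet_Ioi fun r hr => ?_
  have hr0 : 0 < r := hr
  have hn : ‖r • (θ : E)‖ = r := by rw [norm_smul, hθ, mul_one, Real.norm_of_nonneg hr0.le]
  have e : r ^ (Module.finrank ℝ E - 1) * ker p (r • (θ : E)) = r ^ (-1 - 2 * s) := by
    rw [ker, hn, ← Real.rpow_natCast, ← Real.rpow_neg hr0.le, ← Real.rpow_add hr0, Nat.cast_sub hN,
      hps]
    congr 1; push_cast; ring
  rw [mul_left_comm, e, sd_w0, Q_of_nonneg hA.le, hn, real_inner_smul_right,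
    show 1 - ‖x‖ ^ 2 + (-(2 * (r * inner ℝ x (θ : E))) - r ^ 2) =
      1 - ‖x‖ ^ 2 - 2 * inner ℝ x (θ : E) * r - r ^ 2 by ring,
    show 1 - ‖x‖ ^ 2 + (2 * (r * inner ℝ x (θ : E)) - r ^ 2) =
      1 - ‖x‖ ^ 2 + 2 * inner ℝ x (θ : E) * r - r ^ 2 by ring]

/-- The identity of Getoor. -/
theorem getoor (hp : Expo E p) (hps : p = Module.finrank ℝ E + 2 * s) (hs : 1 / 2 < s) :
    ∃ k : ℝ, 0 < k ∧ ∀ x ∈ ball (0 : E) 1,
      Integrable (fun h => sd (w0 s) x h * ker p h) ∧ S p 0 (w0 s) x = k := by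
  have hs1 : s < 1 := by linarith [hp.hi]
  have hs0 : 0 < s := by linarith
  have hp0 : p ≠ 0 := by linarith [hp.two_lt]
  have : Nontrivial E := Module.nontrivial_of_finrank_pos (R := ℝ) (by linarith [hp.two])
  refine ⟨S p 0 (w0 s) (0 : E), ?_, fun x hx => ⟨integrable_sd_w0 hp hs0 hs1.le (by simpa using hx),
    by rw [S_w0_eq hp hps hs (by simpa using hx), S_w0_eq hp hps hs (by simp)]⟩⟩
  have h1 : w0 s (0 : E) = 1 := by simp [w0]
  have hnn : ∀ h : E, 0 ≤ sd (w0 s) 0 h * ker p h := fun h => by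
    refine mul_nonneg ?_ (ker_nonneg _ _)
    have a1 := (abs_le.mp (abs_w0_le hs0 (0 + h))).2
    have a2 := (abs_le.mp (abs_w0_le hs0 (0 - h))).2
    simp only [sd, h1]; linarith
  simp only [S, wt_zero hp0]
  rw [integral_pos_iff_support_of_nonneg hnn (integrable_sd_w0 hp hs0 hs1.le (by simp))]
  obtain ⟨e, he⟩ := exists_norm_eq E (show (0 : ℝ) ≤ 2 by norm_num)
  have hopen : IsOpen {h : E | 1 < ‖h‖} := isOpen_lt continuous_const continuous_norm
  refine (hopen.measure_pos volume ⟨e, by simp [he]⟩).trans_le (measure_mono fun h hh => ?_)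
  have hh' : 1 < ‖h‖ := hh
  refine mul_ne_zero ?_ (inv_ne_zero (Real.rpow_pos_of_pos (by linarith) p).ne')
  simp only [sd, h1]
  rw [w0_eq_zero hs0 (by simpa using hh'.le), w0_eq_zero hs0 (by simpa using hh'.le)]
  norm_num

end Pool.Agent.P.MP_c7f95f_an
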